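import Mathlib

set_option autoImplicit false
open Finset

namespace Pool.Agent.H70.Schur

section PartOne

variable {P : Type} [Fintype P] [DecidableEq P]

/-- the exponent of the squarefree monomial of `Q`. -/
noncomputable def onesOn (Q : Finset P) : P →₀ ℕ := ∑ v ∈ Q, Finsupp.single v 1

omit [Fintype P] in
theorem onesOn_apply (Q : Finset P) (v : P) : onesOn Q v = if v ∈ Q then 1 else 0 := by
  unfold onesOn
  rw [Finsupp.finsetSum_apply]
  simp [Finsupp.single_apply]

omit [Fintype P] [DecidableEq P] in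
theorem prod_X (S : Finset P) : (∏ v ∈ S, MvPolynomial.X v : MvPolynomial P ℤ) =
    MvPolynomial.monomial (onesOn S) 1 := by
  unfold onesOn
  rw [MvPolynomial.monomial_sum_one]
  rfl

/-- sum of the squarefree monomials of the sets in `F` with `|S| + b = n`. -/
noncomputable def Hs (F : Finset (Finset P)) (n b : ℕ) : MvPolynomial P ℤ :=
  ∑ S ∈ F.filter (fun S => S.card + b = n), ∏ v ∈ S, MvPolynomial.X v

/-- the colour class. -/
def fib {N : ℕ} (c : P → Fin N) (a : Fin N) : Finset P := univ.filter fun v => c v = a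

theorem coeff_prod_Hs {N : ℕ} (F : Finset (Finset P)) (n b : Fin N → ℕ) :
    MvPolynomial.coeff (onesOn (univ : Finset P)) (∏ a, Hs F (n a) (b a)) =
      ((univ : Finset (P → Fin N)).filter
        (fun c => ∀ a, fib c a ∈ F ∧ (fib c a).card + b a = n a)).card := by
  unfold Hs
  rw [Finset.prod_univ_sum]
  rw [MvPolynomial.coeff_sum]
  have h1 : ∀ x ∈ Fintype.piFinset fun a => F.filter (fun S => S.card + b a = n a),
      MvPolynomial.coeff (onesOn (univ : Finset P)) (∏ i, ∏ v ∈ x i, MvPolynomial.X v : MvPolynomial P ℤ)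
        = if ∀ v, (univ.filter fun a => v ∈ x a).card = 1 then (1 : ℤ) else 0 := by
    intro x _
    simp only [prod_X]
    rw [← MvPolynomial.monomial_sum_one, MvPolynomial.coeff_monomial]
    congr 1
    apply propext
    rw [Finsupp.ext_iff]
    refine forall_congr' fun v => ?_
    rw [Finsupp.finsetSum_apply]
    simp only [onesOn_apply, Finset.mem_univ, if_true, Finset.sum_boole, Nat.cast_id]
  rw [Finset.sum_congr rfl h1, Finset.sum_boole]
  congr 1
  symm
  refine Finset.card_bij (fun c _ => fun a => fib c a) ?_ ?_ ?_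
  · intro c hc
    simp only [Finset.mem_filter, Finset.mem_univ, true_and] at hc
    simp only [Finset.mem_filter, Fintype.mem_piFinset]
    refine ⟨hc, fun v => ?_⟩
    rw [Finset.card_eq_one]
    refine ⟨c v, ?_⟩
    ext a
    simp [fib, eq_comm]
  · intro c _ c' _ h
    funext v
    have h1 := congrFun h (c v)
    have h2 : v ∈ fib c (c v) := by simp [fib]
    rw [h1] at h2
    simpa [fib, eq_comm] using h2
  · intro x hx
    simp only [Finset.mem_filter, Fintype.mem_piFinset] at hx
    obtain ⟨hx1, hx2⟩ := hx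
    have : ∀ v, ∃ a, (univ.filter fun a => v ∈ x a) = {a} := fun v => Finset.card_eq_one.1 (hx2 v)
    choose c hc using this
    have hfib : ∀ a, fib c a = x a := by
      intro a
      ext v
      simp only [fib, Finset.mem_filter, Finset.mem_univ, true_and]
      have h1 : a ∈ (univ.filter fun a => v ∈ x a) ↔ a ∈ ({c v} : Finset (Fin N)) := by rw [hc v]
      simp only [Finset.mem_filter, Finset.mem_univ, true_and, Finset.mem_singleton] at h1
      rw [h1]; exact eq_comm
    refine ⟨c, ?_, ?_⟩
    · simp only [Finset.mem_filter, Finset.mem_univ, true_and]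
      intro a
      rw [hfib]; exact hx1 a
    · funext a; exact hfib a

/-- the determinant of the Jacobi–Trudi type matrix, at the all-ones monomial, as a signed count
of colourings. -/
theorem coeff_det {N : ℕ} (F : Finset (Finset P)) (α : Fin N → ℕ) :
    MvPolynomial.coeff (onesOn (univ : Finset P))
      (Matrix.det (Matrix.of fun a b : Fin N => Hs F (α a) b)) =
      ∑ σ : Equiv.Perm (Fin N), (Equiv.Perm.sign σ : ℤ) * (((univ : Finset (P → Fin N)).filter
        (fun c => ∀ a, fib c a ∈ F ∧ (fib c a).card + (σ a : ℕ) = α a)).card : ℤ) := by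
  rw [← Matrix.det_transpose, Matrix.det_apply, MvPolynomial.coeff_sum]
  refine Finset.sum_congr rfl fun σ _ => ?_
  rw [Units.smul_def, MvPolynomial.coeff_smul, smul_eq_mul]
  congr 1
  rw [← coeff_prod_Hs]
  rfl

theorem vandermonde_eq {N : ℕ} (hN : Even ((univ : Finset (Fin N × Fin N)).filter
      (fun p => p.1 < p.2)).card) :
    (∏ p ∈ (univ : Finset (Fin N × Fin N)).filter (fun p => p.1 < p.2),
      (MvPolynomial.X p.1 - MvPolynomial.X p.2 : MvPolynomial (Fin N) ℤ)) =
    ∑ σ : Equiv.Perm (Fin N), (Equiv.Perm.sign σ : ℤ) •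
      ∏ a, (MvPolynomial.X a : MvPolynomial (Fin N) ℤ) ^ (σ a : ℕ) := by
  have h1 : (∏ p ∈ (univ : Finset (Fin N × Fin N)).filter (fun p => p.1 < p.2),
      (MvPolynomial.X p.1 - MvPolynomial.X p.2 : MvPolynomial (Fin N) ℤ)) =
      ∏ p ∈ (univ : Finset (Fin N × Fin N)).filter (fun p => p.1 < p.2),
      (MvPolynomial.X p.2 - MvPolynomial.X p.1 : MvPolynomial (Fin N) ℤ) := by
    have : ∀ p : Fin N × Fin N, (MvPolynomial.X p.1 - MvPolynomial.X p.2 : MvPolynomial (Fin N) ℤ)
        = (-1) * (MvPolynomial.X p.2 - MvPolynomial.X p.1) := by intro p; ring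
    simp only [this]
    rw [Finset.prod_mul_distrib, Finset.prod_const, hN.neg_one_pow, one_mul]
  have h2 : (∏ p ∈ (univ : Finset (Fin N × Fin N)).filter (fun p => p.1 < p.2),
      (MvPolynomial.X p.2 - MvPolynomial.X p.1 : MvPolynomial (Fin N) ℤ)) =
      Matrix.det (Matrix.vandermonde fun i : Fin N => (MvPolynomial.X i : MvPolynomial (Fin N) ℤ)) := by
    rw [Matrix.det_vandermonde, Finset.prod_filter, ← Finset.univ_product_univ,
      Finset.prod_product]
    refine Finset.prod_congr rfl fun i _ => ?_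
    rw [← Finset.prod_filter]
    refine Finset.prod_congr ?_ fun _ _ => rfl
    ext j; simp
  rw [h1, h2, ← Matrix.det_transpose, Matrix.det_apply]
  refine Finset.sum_congr rfl fun σ _ => ?_
  rw [Units.smul_def]
  rfl

/-- coefficient extraction. -/
theorem coeff_chrom {N : ℕ} (hN : Even ((univ : Finset (Fin N × Fin N)).filter
      (fun p => p.1 < p.2)).card) (F : Finset (Finset P)) (T : Finset (P → Fin N))
    (hT : ∀ c, c ∈ T ↔ ∀ a, fib c a ∈ F) (α : Fin N →₀ ℕ) :
    MvPolynomial.coeff α ((∑ c ∈ T, ∏ v : P, (MvPolynomial.X (c v) : MvPolynomial (Fin N) ℤ)) *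
      ∏ p ∈ (univ : Finset (Fin N × Fin N)).filter (fun p => p.1 < p.2),
        (MvPolynomial.X p.1 - MvPolynomial.X p.2 : MvPolynomial (Fin N) ℤ)) =
    MvPolynomial.coeff (onesOn (univ : Finset P))
      (Matrix.det (Matrix.of fun a b : Fin N => Hs F (α a) b)) := by
  rw [vandermonde_eq hN, coeff_det, Finset.mul_sum, MvPolynomial.coeff_sum]
  refine Finset.sum_congr rfl fun σ _ => ?_
  rw [mul_smul_comm, MvPolynomial.coeff_smul, smul_eq_mul]
  congr 1
  rw [Finset.sum_mul, MvPolynomial.coeff_sum]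
  have h1 : ∀ c ∈ T, MvPolynomial.coeff α ((∏ v : P, (MvPolynomial.X (c v) : MvPolynomial (Fin N) ℤ)) *
      ∏ a, (MvPolynomial.X a : MvPolynomial (Fin N) ℤ) ^ (σ a : ℕ)) =
      if (∀ a, (fib c a).card + (σ a : ℕ) = α a) then (1 : ℤ) else 0 := by
    intro c _
    have e1 : (∏ v : P, (MvPolynomial.X (c v) : MvPolynomial (Fin N) ℤ)) =
        MvPolynomial.monomial (∑ v : P, Finsupp.single (c v) 1) 1 := by
      rw [MvPolynomial.monomial_sum_one]; rfl
    have e2 : (∏ a, (MvPolynomial.X a : MvPolynomial (Fin N) ℤ) ^ (σ a : ℕ)) =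
        MvPolynomial.monomial (∑ a : Fin N, Finsupp.single a (σ a : ℕ)) 1 := by
      rw [MvPolynomial.monomial_sum_one]
      refine Finset.prod_congr rfl fun a _ => ?_
      rw [MvPolynomial.X_pow_eq_monomial]
    rw [e1, e2, MvPolynomial.monomial_mul, one_mul, MvPolynomial.coeff_monomial]
    congr 1
    apply propext
    rw [Finsupp.ext_iff]
    refine forall_congr' fun a => ?_
    rw [Finsupp.add_apply, Finsupp.finsetSum_apply, Finsupp.finsetSum_apply]
    simp only [Finsupp.single_apply, Finset.sum_boole, Nat.cast_id, Finset.sum_ite_eq',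
      Finset.mem_univ, if_true]
    rfl
  rw [Finset.sum_congr rfl h1, Finset.sum_boole]
  congr 2
  ext c
  simp only [Finset.mem_filter, Finset.mem_univ, true_and, hT]
  constructor
  · rintro ⟨h2, h3⟩ a
    exact ⟨h2 a, h3 a⟩
  · intro h2
    exact ⟨fun a => (h2 a).1, fun a => (h2 a).2⟩

end PartOne

end Pool.Agent.H70.Schur
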