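import Mathlib

set_option autoImplicit false
open Finset

namespace Pool.Agent.H70.Schur

section PartTwo

variable {A : Type} [CommRing A]

/-- the sign. -/
def sg (A : Type) [CommRing A] : ℕ → A
  | 0 => 1
  | m + 1 => (-1) ^ (m + 2) * sg A m

theorem det_unit_rows (m : ℕ) (M : Matrix (Fin (m + 2)) (Fin (m + 2)) A)
    (h : ∀ a : Fin (m + 2), 2 ≤ (a : ℕ) → ∀ c : Fin (m + 2),
      M a c = if (c : ℕ) + a = m + 3 then 1 else 0) :
    M.det = sg A m * (M 0 0 * M 1 1 - M 0 1 * M 1 0) := by
  induction m with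
  | zero => rw [Matrix.det_fin_two, sg, one_mul]
  | succ m ih =>
    let j2 : Fin (m + 1 + 2) := ⟨2, by omega⟩
    rw [Matrix.det_succ_row M (Fin.last (m + 2)), Finset.sum_eq_single j2]
    · have h1 : M (Fin.last (m + 2)) j2 = 1 := by
        rw [h _ (by simp) j2, if_pos (by simp [j2]; omega)]
      have h2 := ih (M.submatrix (Fin.last (m + 2)).succAbove j2.succAbove) ?_
      · rw [h1, h2]
        have e1 : (Fin.last (m + 2)).succAbove 0 = 0 := by simp
        have e2 : (Fin.last (m + 2)).succAbove 1 = 1 := by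
          rw [Fin.succAbove_last]; rfl
        have e3 : j2.succAbove 0 = 0 := by
          rw [Fin.succAbove_of_castSucc_lt]
          · rfl
          · simp [Fin.lt_def, j2]
        have e4 : j2.succAbove 1 = 1 := by
          rw [Fin.succAbove_of_castSucc_lt]
          · rfl
          · simp [Fin.lt_def, j2]
        simp only [Matrix.submatrix_apply, e1, e2, e3, e4, sg]
        have e5 : ((Fin.last (m + 2) : Fin (m + 3)) : ℕ) + (j2 : ℕ) = m + 2 + 2 := by simp [j2]
        rw [e5, pow_add (-1 : A) (m + 2) 2]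
        ring
      · intro a ha c
        rw [Matrix.submatrix_apply, Fin.succAbove_last, h _ (by simpa using ha)]
        have hc : (j2.succAbove c : ℕ) = if (c : ℕ) < 2 then (c : ℕ) else c + 1 := by
          by_cases hc : (c : ℕ) < 2
          · rw [if_pos hc, Fin.succAbove_of_castSucc_lt]
            · simp
            · simpa [Fin.lt_def, j2] using hc
          · rw [if_neg hc, Fin.succAbove_of_le_castSucc]
            · simp
            · have : 2 ≤ (c : ℕ) := not_lt.1 hc
              simpa [Fin.le_def, j2] using this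
        have ha' : (a : ℕ) < m + 2 := a.2
        have hc' : (c : ℕ) < m + 2 := c.2
        rw [hc]
        simp only [Fin.val_castSucc]
        by_cases hc2 : (c : ℕ) < 2
        · rw [if_pos hc2, if_neg (by omega), if_neg (by omega)]
        · rw [if_neg hc2]
          by_cases hh : (c : ℕ) + a = m + 3
          · rw [if_pos hh, if_pos (by omega)]
          · rw [if_neg hh, if_neg (by omega)]
    · intro c _ hc
      have : M (Fin.last (m + 2)) c = 0 := by
        rw [h _ (by simp) c, if_neg]
        intro h'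
        apply hc
        apply Fin.ext
        simp [j2] at h' ⊢
        omega
      rw [this]; ring
    · intro h'; exact absurd (Finset.mem_univ _) h'

/-- the dual sequence. -/
def e1 (h : ℕ → A) : A := h 1
def e2 (h : ℕ → A) : A := h 1 * e1 h - h 2
def e3 (h : ℕ → A) : A := h 1 * e2 h - h 2 * e1 h + h 3
def e4 (h : ℕ → A) : A := h 1 * e3 h - h 2 * e2 h + h 3 * e1 h - h 4
def e5 (h : ℕ → A) : A := h 1 * e4 h - h 2 * e3 h + h 3 * e2 h - h 4 * e1 h + h 5
def e6 (h : ℕ → A) : A :=
  h 1 * e5 h - h 2 * e4 h + h 3 * e3 h - h 4 * e2 h + h 5 * e1 h - h 6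
def e7 (h : ℕ → A) : A :=
  h 1 * e6 h - h 2 * e5 h + h 3 * e4 h - h 4 * e3 h + h 5 * e2 h - h 6 * e1 h + h 7
def e8 (h : ℕ → A) : A :=
  h 1 * e7 h - h 2 * e6 h + h 3 * e5 h - h 4 * e4 h + h 5 * e3 h - h 6 * e2 h + h 7 * e1 h - h 8
def e9 (h : ℕ → A) : A :=
  h 1 * e8 h - h 2 * e7 h + h 3 * e6 h - h 4 * e5 h + h 5 * e4 h - h 6 * e3 h + h 7 * e2 h
    - h 8 * e1 h + h 9

/-- the exponents `λ + δ` for `λ = (9, 2^8)`. -/
def al : Fin 9 → ℕ := ![17, 9, 8, 7, 6, 5, 4, 3, 2]

/-- the Jacobi–Trudi type matrix. -/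
def JT (h : ℕ → A) : Matrix (Fin 9) (Fin 9) A :=
  Matrix.of fun a b => if (b : ℕ) ≤ al a then h (al a - b) else 0

/-- the sequence of dual elements as a function. -/
def es (h : ℕ → A) : ℕ → A
  | 0 => 1
  | 1 => e1 h
  | 2 => e2 h
  | 3 => e3 h
  | 4 => e4 h
  | 5 => e5 h
  | 6 => e6 h
  | 7 => e7 h
  | 8 => e8 h
  | 9 => e9 h
  | _ => 0

def UT (h : ℕ → A) : Matrix (Fin 9) (Fin 9) A :=
  Matrix.of fun b c => if (c : ℕ) ≤ b then (-1) ^ ((b : ℕ) - c) * es h (b - c) else 0

theorem det_UT (h : ℕ → A) : (UT h).det = 1 := by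
  rw [Matrix.det_of_isLowerTriangular]
  · apply Finset.prod_eq_one
    intro i _
    simp [UT, es]
  · intro i j hij
    have : i < j := hij
    simp only [UT, Matrix.of_apply]
    rw [if_neg]
    have := Fin.lt_def.1 this
    omega

theorem es_rel (h : ℕ → A) (h0 : h 0 = 1) (k : ℕ) (hk : 1 ≤ k) (hk9 : k ≤ 9) :
    ∑ m ∈ Finset.range (k + 1), h m * ((-1) ^ (k - m) * es h (k - m)) = 0 := by
  interval_cases k
  · simp only [Finset.sum_range_succ, Finset.sum_range_zero, es, h0, Nat.sub_zero, Nat.sub_self]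
    rw [e1]; ring
  · simp only [Finset.sum_range_succ, Finset.sum_range_zero, es, h0, Nat.reduceSub, Nat.sub_zero,
      Nat.sub_self]
    rw [e2]; ring
  · simp only [Finset.sum_range_succ, Finset.sum_range_zero, es, h0, Nat.reduceSub, Nat.sub_zero,
      Nat.sub_self]
    rw [e3]; ring
  · simp only [Finset.sum_range_succ, Finset.sum_range_zero, es, h0, Nat.reduceSub, Nat.sub_zero,
      Nat.sub_self]
    rw [e4]; ring
  · simp only [Finset.sum_range_succ, Finset.sum_range_zero, es, h0, Nat.reduceSub, Nat.sub_zero,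
      Nat.sub_self]
    rw [e5]; ring
  · simp only [Finset.sum_range_succ, Finset.sum_range_zero, es, h0, Nat.reduceSub, Nat.sub_zero,
      Nat.sub_self]
    rw [e6]; ring
  · simp only [Finset.sum_range_succ, Finset.sum_range_zero, es, h0, Nat.reduceSub, Nat.sub_zero,
      Nat.sub_self]
    rw [e7]; ring
  · simp only [Finset.sum_range_succ, Finset.sum_range_zero, es, h0, Nat.reduceSub, Nat.sub_zero,
      Nat.sub_self]
    rw [e8]; ring
  · simp only [Finset.sum_range_succ, Finset.sum_range_zero, es, h0, Nat.reduceSub, Nat.sub_zero,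
      Nat.sub_self]
    rw [e9]; ring

theorem conv (h : ℕ → A) (h0 : h 0 = 1) (n c : ℕ) (hn : n ≤ 8) :
    ∑ b ∈ Finset.range 9, (if b ≤ n then h (n - b) else 0) *
      (if c ≤ b then (-1) ^ (b - c) * es h (b - c) else 0) = if c = n then 1 else 0 := by
  by_cases hcn : c ≤ n
  · have h1 : ∑ b ∈ Finset.range 9, (if b ≤ n then h (n - b) else 0) *
        (if c ≤ b then (-1) ^ (b - c) * es h (b - c) else 0) =
        ∑ m ∈ Finset.range (n - c + 1), h m * ((-1) ^ (n - c - m) * es h (n - c - m)) := by
      rw [← Finset.sum_subset (s₁ := Finset.Icc c n)]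
      · refine Finset.sum_nbij' (fun b => n - b) (fun m => n - m) ?_ ?_ ?_ ?_ ?_
        · intro b hb
          simp only [Finset.mem_Icc, Finset.mem_range] at hb ⊢
          omega
        · intro b hb
          simp only [Finset.mem_Icc, Finset.mem_range] at hb ⊢
          omega
        · intro b hb
          simp only [Finset.mem_Icc] at hb
          omega
        · intro b hb
          simp only [Finset.mem_range] at hb
          omega
        · intro b hb
          simp only [Finset.mem_Icc] at hb
          rw [if_pos hb.2, if_pos hb.1]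
          have : n - c - (n - b) = b - c := by omega
          rw [this]
      · intro b hb
        simp only [Finset.mem_Icc, Finset.mem_range] at hb ⊢
        omega
      · intro b _ hb
        simp only [Finset.mem_Icc, not_and_or, not_le] at hb
        rcases hb with hb | hb
        · rw [if_neg (by omega : ¬ c ≤ b), mul_zero]
        · rw [if_neg (by omega : ¬ b ≤ n), zero_mul]
    rw [h1]
    by_cases hcn' : c = n
    · subst hcn'
      simp [h0, es]
    · rw [if_neg hcn', es_rel h h0 (n - c) (by omega) (by omega)]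
  · rw [if_neg (by omega)]
    apply Finset.sum_eq_zero
    intro b _
    by_cases hb : b ≤ n
    · rw [if_neg (by omega : ¬ c ≤ b), mul_zero]
    · rw [if_neg hb, zero_mul]

theorem det_JT (h : ℕ → A) (h0 : h 0 = 1) (hbig : ∀ k, 9 < k → h k = 0) :
    (JT h).det = h 9 * (e8 h * e8 h - e7 h * e9 h) := by
  have hent : ∀ a c : Fin 9, (JT h * UT h) a c =
      ∑ b ∈ Finset.range 9, (if b ≤ al a then h (al a - b) else 0) *
      (if (c : ℕ) ≤ b then (-1) ^ (b - c) * es h (b - c) else 0) := by
    intro a c
    rw [Matrix.mul_apply, Finset.sum_range]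
    rfl
  have key : ∀ a : Fin 9, 2 ≤ (a : ℕ) → ∀ c : Fin 9,
      (JT h * UT h) a c = if (c : ℕ) + a = 7 + 3 then 1 else 0 := by
    intro a ha c
    have h1 : al a + a = 10 := by
      revert a; decide
    rw [hent, conv h h0 (al a) c (by omega)]
    by_cases hh : (c : ℕ) + a = 7 + 3
    · rw [if_pos hh, if_pos (by omega)]
    · rw [if_neg hh, if_neg (by omega)]
  have hrow0 : ∀ c : Fin 9, (JT h * UT h) 0 c = h 9 * ((-1) ^ (8 - (c : ℕ)) * es h (8 - c)) := by
    intro c
    rw [hent]
    have hal : al 0 = 17 := rfl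
    rw [hal, Finset.sum_range_succ]
    have : ∑ b ∈ Finset.range 8, (if b ≤ 17 then h (17 - b) else 0) *
        (if (c : ℕ) ≤ b then (-1) ^ (b - (c : ℕ)) * es h (b - c) else 0) = 0 := by
      apply Finset.sum_eq_zero
      intro b hb
      rw [Finset.mem_range] at hb
      rw [if_pos (by omega), hbig _ (by omega), zero_mul]
    rw [this, zero_add, if_pos (by norm_num), if_pos (by omega)]
  have hrow1 : ∀ c : Fin 9, (JT h * UT h) 1 c = - ((-1) ^ (9 - (c : ℕ)) * es h (9 - c)) := by
    intro c
    rw [hent]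
    have hal : al 1 = 9 := rfl
    rw [hal]
    have h1 := es_rel h h0 (9 - (c : ℕ)) (by omega) (by omega)
    rw [Finset.sum_range_succ', h0, one_mul, Nat.sub_zero, add_comm] at h1
    rw [← eq_neg_of_add_eq_zero_right h1]
    rw [← Finset.sum_subset (s₁ := Finset.Icc (c : ℕ) 8)]
    · refine Finset.sum_nbij' (fun b => 8 - b) (fun m => 8 - m) ?_ ?_ ?_ ?_ ?_
      · intro b hb
        simp only [Finset.mem_Icc, Finset.mem_range] at hb ⊢
        omega
      · intro b hb
        simp only [Finset.mem_Icc, Finset.mem_range] at hb ⊢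
        omega
      · intro b hb
        simp only [Finset.mem_Icc] at hb
        omega
      · intro b hb
        simp only [Finset.mem_range] at hb
        omega
      · intro b hb
        simp only [Finset.mem_Icc] at hb
        rw [if_pos (by omega), if_pos hb.1]
        have e1 : 9 - (c : ℕ) - (8 - b + 1) = b - c := by omega
        have e2 : 8 - b + 1 = 9 - b := by omega
        rw [e1, e2]
    · intro b hb
      simp only [Finset.mem_Icc, Finset.mem_range] at hb ⊢
      omega
    · intro b hb hb'
      simp only [Finset.mem_Icc, not_and_or, not_le, Finset.mem_range] at hb hb'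
      rw [if_neg (by omega : ¬ (c : ℕ) ≤ b), mul_zero]
  have h1 := det_unit_rows 7 (JT h * UT h) key
  rw [Matrix.det_mul, det_UT, mul_one, hrow0, hrow0, hrow1, hrow1] at h1
  rw [h1]
  have h2 : sg A 7 = -1 := by simp only [sg]; norm_num
  rw [h2]
  have v0 : ((0 : Fin (7 + 2)) : ℕ) = 0 := rfl
  have v1 : ((1 : Fin (7 + 2)) : ℕ) = 1 := rfl
  simp only [v0, v1, Nat.sub_zero, Nat.reduceSub, es]
  ring

end PartTwo

end Pool.Agent.H70.Schur
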