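import Mathlib

set_option autoImplicit false
open Finset

namespace Pool.Agent.H70.Schur

section PartThree

/-! ### Weighted sums over chains, codes -/

/-- inner step of `chw`. -/
def chwS {R : Type} [CommSemiring R] (τ : ℕ → R) (f : List ℕ → R) : List ℕ → R
  | [] => 0
  | v :: l => chwS τ f l + τ v * f (l.filter fun c => v % 5 ≤ c % 5)

/-- sum of the weights of the `k`-element chains in the list of codes `l`. -/
def chw {R : Type} [CommSemiring R] (τ : ℕ → R) : ℕ → List ℕ → R
  | 0 => fun _ => 1
  | k + 1 => chwS τ (chw τ k)

/-- a set of codes is a chain. -/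
def isC (S : Finset ℕ) : Prop := ∀ a ∈ S, ∀ b ∈ S, a ≤ b → a % 5 ≤ b % 5

section
variable {R : Type} [CommSemiring R] (τ : ℕ → R)

theorem chw_zero (l : List ℕ) : chw τ 0 l = 1 := rfl
theorem chw_nil (k : ℕ) : chw τ (k + 1) [] = 0 := rfl
theorem chw_cons (k v : ℕ) (l : List ℕ) : chw τ (k + 1) (v :: l) =
    chw τ (k + 1) l + τ v * chw τ k (l.filter fun c => v % 5 ≤ c % 5) := rfl

theorem isC_insert {v : ℕ} {S : Finset ℕ} (h : ∀ c ∈ S, v < c) :
    isC (insert v S) ↔ isC S ∧ ∀ c ∈ S, v % 5 ≤ c % 5 := by
  constructor
  · intro hC
    refine ⟨fun a ha b hb hab => hC a (mem_insert_of_mem ha) b (mem_insert_of_mem hb) hab, ?_⟩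
    intro c hc
    exact hC v (mem_insert_self _ _) c (mem_insert_of_mem hc) (h c hc).le
  · rintro ⟨h1, h2⟩ a ha b hb hab
    rw [mem_insert] at ha hb
    rcases ha with rfl | ha
    · rcases hb with rfl | hb
      · exact le_rfl
      · exact h2 b hb
    · rcases hb with rfl | hb
      · exact absurd (h a ha) (not_lt.2 hab)
      · exact h1 a ha b hb hab

open Classical in
theorem sum_chains (k : ℕ) (l : List ℕ) (hl : l.Pairwise (· < ·)) :
    ∑ S ∈ l.toFinset.powerset, (if isC S ∧ S.card = k then ∏ c ∈ S, τ c else 0) = chw τ k l := by
  induction k generalizing l with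
  | zero =>
    rw [chw_zero, Finset.sum_eq_single ∅]
    · simp [isC]
    · intro S _ hS
      rw [if_neg]
      rintro ⟨_, h⟩
      exact hS (card_eq_zero.1 h)
    · intro h
      simp at h
  | succ k ihk =>
    induction l with
    | nil => simp [chw_nil]
    | cons v l ih =>
      rw [List.pairwise_cons] at hl
      have hv : v ∉ l.toFinset := by
        rw [List.mem_toFinset]
        intro h
        exact lt_irrefl _ (hl.1 v h)
      rw [List.toFinset_cons, Finset.sum_powerset_insert hv, ih hl.2, chw_cons]
      congr 1
      rw [← ihk _ (hl.2.filter _), Finset.mul_sum]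
      have hsub : (l.filter fun c => v % 5 ≤ c % 5).toFinset.powerset ⊆ l.toFinset.powerset := by
        apply Finset.powerset_mono.2
        intro c hc
        rw [List.mem_toFinset] at hc ⊢
        exact (List.mem_filter.1 hc).1
      rw [← Finset.sum_subset hsub]
      · refine Finset.sum_congr rfl fun S hS => ?_
        rw [mem_powerset] at hS
        have h1 : ∀ c ∈ S, v < c ∧ v % 5 ≤ c % 5 := by
          intro c hc
          have := hS hc
          rw [List.mem_toFinset, List.mem_filter] at this
          exact ⟨hl.1 c this.1, by simpa using this.2⟩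
        have hvS : v ∉ S := fun h => lt_irrefl _ (h1 v h).1
        rw [isC_insert (fun c hc => (h1 c hc).1), card_insert_of_notMem hvS, prod_insert hvS]
        by_cases hh : isC S ∧ S.card = k
        · rw [if_pos hh, if_pos ⟨⟨hh.1, fun c hc => (h1 c hc).2⟩, by rw [hh.2]⟩]
        · rw [if_neg hh, if_neg, mul_zero]
          rintro ⟨⟨h2, _⟩, h3⟩
          exact hh ⟨h2, by omega⟩
      · intro S hS hS'
        rw [mem_powerset] at hS hS'
        have h1 : ∀ c ∈ S, v < c := by
          intro c hc
          exact hl.1 c (List.mem_toFinset.1 (hS hc))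
        rw [if_neg]
        rintro ⟨h2, _⟩
        rw [isC_insert h1] at h2
        apply hS'
        intro c hc
        rw [List.mem_toFinset, List.mem_filter]
        exact ⟨List.mem_toFinset.1 (hS hc), by simpa using h2.2 c hc⟩

theorem chw_congr {τ' : ℕ → R} (k : ℕ) (l : List ℕ) (h : ∀ c ∈ l, τ c = τ' c) :
    chw τ k l = chw τ' k l := by
  induction k generalizing l with
  | zero => rfl
  | succ k ihk =>
    induction l with
    | nil => rfl
    | cons v l ih =>
      rw [chw_cons, chw_cons, ih (fun c hc => h c (List.mem_cons_of_mem _ hc)),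
        h v List.mem_cons_self, ihk]
      intro c hc
      exact h c (List.mem_cons_of_mem _ (List.mem_filter.1 hc).1)

theorem chw_map {R' : Type} [CommSemiring R'] (f : R →+* R') (k : ℕ) (l : List ℕ) :
    f (chw τ k l) = chw (fun c => f (τ c)) k l := by
  induction k generalizing l with
  | zero => exact map_one f
  | succ k ihk =>
    induction l with
    | nil => exact map_zero f
    | cons v l ih =>
      rw [chw_cons, chw_cons, map_add, map_mul, ih, ihk]

theorem chw_length (k : ℕ) (l : List ℕ) (h : l.length < k) : chw τ k l = 0 := by
  induction k generalizing l with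
  | zero => simp at h
  | succ k ihk =>
    induction l with
    | nil => rfl
    | cons v l ih =>
      rw [List.length_cons] at h
      rw [chw_cons, ih (by omega), ihk, mul_zero, add_zero]
      exact lt_of_le_of_lt (List.length_filter_le _ _) (by omega)

theorem chw_filter (p : ℕ → Bool) (k : ℕ) (l : List ℕ) (h : ∀ c ∈ l, p c = false → τ c = 0) :
    chw τ k l = chw τ k (l.filter p) := by
  induction k generalizing l with
  | zero => rfl
  | succ k ihk =>
    induction l with
    | nil => rfl
    | cons v l ih =>
      have h1 : ∀ c ∈ l, p c = false → τ c = 0 := fun c hc => h c (List.mem_cons_of_mem _ hc)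
      rw [chw_cons, ih h1]
      by_cases hp : p v = true
      · rw [List.filter_cons_of_pos hp, chw_cons, ihk]
        · congr 3
          rw [List.filter_filter, List.filter_filter]
          congr 1
          funext c
          exact Bool.and_comm _ _
        · intro c hc
          exact h1 c (List.mem_filter.1 hc).1
      · rw [List.filter_cons_of_neg hp, h v List.mem_cons_self (by simpa using hp), zero_mul,
          add_zero]

end

/-! ### The list of chains -/

/-- inner step of `chs`. -/
def chsS (k : ℕ) (f : List ℕ → List (List ℕ)) : List ℕ → List (List ℕ)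
  | [] => []
  | v :: l => if l.length < k then [] else
      chsS k f l ++ (f (l.filter fun c => v % 5 ≤ c % 5)).map (fun t => v :: t)

/-- the list of the `k`-element chains. -/
def chs : ℕ → List ℕ → List (List ℕ)
  | 0 => fun _ => [[]]
  | k + 1 => chsS k (chs k)

theorem chs_cons (k v : ℕ) (l : List ℕ) : chs (k + 1) (v :: l) =
    if l.length < k then [] else chs (k + 1) l ++
      (chs k (l.filter fun c => v % 5 ≤ c % 5)).map (fun t => v :: t) := rfl

theorem chw_eq_chs {R : Type} [CommSemiring R] (τ : ℕ → R) (k : ℕ) (l : List ℕ) :
    chw τ k l = ((chs k l).map fun t => (t.map τ).prod).sum := by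
  induction k generalizing l with
  | zero => simp [chw_zero, chs]
  | succ k ihk =>
    induction l with
    | nil => simp [chw_nil, chs, chsS]
    | cons v l ih =>
      rw [chs_cons]
      by_cases hlen : l.length < k
      · rw [if_pos hlen, chw_length]
        · simp
        · simpa using hlen
      · rw [if_neg hlen, chw_cons, ih, ihk, List.map_append, List.sum_append, List.map_map]
        congr 1
        rw [← List.sum_map_mul_left]
        congr 1

end PartThree

end Pool.Agent.H70.Schur
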