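import Pool.Agent.H70.Schur1
import Pool.Agent.H70.Schur3

set_option autoImplicit false
open Finset

namespace Pool.Agent.H70.Schur

section PartFour

/-! ### Extraction of the squarefree coefficient by a one-variable specialisation -/

/-- the exponent given to an element of a list: two to the number of later elements. -/
def ex {α : Type} [DecidableEq α] : List α → α → ℕ
  | [], _ => 0
  | q :: t, v => if v = q then 2 ^ t.length else ex t v

/-- value of a list of digits, most significant first. -/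
def bval : List ℕ → ℕ
  | [] => 0
  | a :: l => a * 2 ^ l.length + bval l

theorem bval_le (l : List ℕ) (t : ℕ) (h : bval l + 1 = (t + 1) * 2 ^ l.length) :
    l.length + 2 * t ≤ l.sum := by
  induction l generalizing t with
  | nil =>
    simp [bval] at h ⊢
    omega
  | cons a l ih =>
    simp only [bval, List.length_cons, pow_succ] at h
    have hpos : 0 < 2 ^ l.length := by positivity
    have ha : a ≤ 2 * t + 1 := by
      by_contra hcon
      have h1 : (2 * t + 2) * 2 ^ l.length ≤ a * 2 ^ l.length := Nat.mul_le_mul_right _ (by omega)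
      nlinarith
    obtain ⟨b, hb⟩ : ∃ b, a + b = 2 * t + 1 := ⟨2 * t + 1 - a, by omega⟩
    have h2 : bval l + 1 = (b + 1) * 2 ^ l.length := by
      have h3 : a * 2 ^ l.length + (b + 1) * 2 ^ l.length = (t + 1) * (2 ^ l.length * 2) := by
        have : a + (b + 1) = 2 * (t + 1) := by omega
        calc a * 2 ^ l.length + (b + 1) * 2 ^ l.length = (a + (b + 1)) * 2 ^ l.length := by ring
          _ = (t + 1) * (2 ^ l.length * 2) := by rw [this]; ring
      omega
    have := ih b h2
    simp only [List.length_cons, List.sum_cons]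
    omega

theorem bval_eq (l : List ℕ) (h : bval l + 1 = 2 ^ l.length) (hs : l.sum = l.length) :
    ∀ a ∈ l, a = 1 := by
  induction l with
  | nil => simp
  | cons a l ih =>
    simp only [bval, List.length_cons, pow_succ, List.sum_cons] at h hs
    have hpos : 0 < 2 ^ l.length := by positivity
    have ha : a < 2 := by
      by_contra hcon
      have h1 : 2 * 2 ^ l.length ≤ a * 2 ^ l.length := Nat.mul_le_mul_right _ (by omega)
      nlinarith
    interval_cases a
    · have h1 : bval l + 1 = (1 + 1) * 2 ^ l.length := by omega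
      have := bval_le l 1 h1
      omega
    · intro b hb
      rcases List.mem_cons.1 hb with rfl | hb
      · rfl
      · exact ih (by omega) (by omega) b hb

theorem bval_ones (l : List ℕ) (h : ∀ a ∈ l, a = 1) : bval l + 1 = 2 ^ l.length := by
  induction l with
  | nil => simp [bval]
  | cons a l ih =>
    have h1 := ih (fun b hb => h b (List.mem_cons_of_mem _ hb))
    have h2 := h a List.mem_cons_self
    simp only [bval, List.length_cons, pow_succ, h2]
    omega

section
variable {P : Type} [Fintype P] [DecidableEq P]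

omit [Fintype P] in
theorem sum_ex (Q : List P) (hQ : Q.Nodup) (d : P → ℕ) :
    (Q.map fun v => d v * ex Q v).sum = bval (Q.map d) := by
  induction Q with
  | nil => rfl
  | cons q t ih =>
    rw [List.nodup_cons] at hQ
    rw [List.map_cons, List.map_cons, List.sum_cons, bval, List.length_map, ← ih hQ.2]
    congr 1
    · simp [ex]
    · congr 1
      apply List.map_congr_left
      intro v hv
      have : v ≠ q := fun h => hQ.1 (h ▸ hv)
      simp [ex, this]

/-- the substitution. -/
noncomputable def sub (Q : List P) (v : P) : Polynomial ℤ :=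
  if v ∈ Q then Polynomial.X ^ ex Q v else 0

theorem coeff_prod_sub (Q : List P) (hQ : Q.Nodup) (d : P →₀ ℕ) (hd : ∑ v, d v = Q.length) :
    (∏ v, sub Q v ^ d v).coeff (2 ^ Q.length - 1) = if d = onesOn Q.toFinset then 1 else 0 := by
  by_cases h : ∀ v, v ∉ Q → d v = 0
  · have h1 : ∀ v, sub Q v ^ d v = Polynomial.X ^ (d v * ex Q v) := by
      intro v
      unfold sub
      by_cases hv : v ∈ Q
      · rw [if_pos hv, ← pow_mul, mul_comm]
      · rw [if_neg hv, h v hv, pow_zero, zero_mul, pow_zero]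
    have hsum : ∀ f : P → ℕ, (∀ v, v ∉ Q → f v = 0) → ∑ v, f v = (Q.map f).sum := by
      intro f hf
      rw [← List.sum_toFinset f hQ]
      symm
      apply Finset.sum_subset (Finset.subset_univ _)
      intro v _ hv
      exact hf v (by rwa [List.mem_toFinset] at hv)
    have h2 : ∑ v, d v * ex Q v = bval (Q.map d) := by
      rw [← sum_ex Q hQ]
      apply hsum
      intro v hv
      rw [h v hv, zero_mul]
    have h3 : (Q.map d).sum = Q.length := by
      rw [← hd]
      exact (hsum d h).symm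
    rw [Finset.prod_congr rfl fun v _ => h1 v, Finset.prod_pow_eq_pow_sum, Polynomial.coeff_X_pow,
      h2]
    congr 1
    apply propext
    have hlen : (Q.map d).length = Q.length := List.length_map _
    have hpos : 0 < 2 ^ Q.length := by positivity
    constructor
    · intro h4
      have h5 := bval_eq (Q.map d) (by rw [hlen]; omega) (by rw [hlen, h3])
      ext v
      rw [onesOn_apply]
      by_cases hv : v ∈ Q
      · rw [if_pos (List.mem_toFinset.2 hv)]
        exact h5 (d v) (List.mem_map.2 ⟨v, hv, rfl⟩)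
      · rw [if_neg (fun h' => hv (List.mem_toFinset.1 h')), h v hv]
    · intro h4
      have h5 : ∀ a ∈ Q.map d, a = 1 := by
        intro a ha
        obtain ⟨v, hv, rfl⟩ := List.mem_map.1 ha
        rw [h4, onesOn_apply, if_pos (List.mem_toFinset.2 hv)]
      have := bval_ones _ h5
      rw [hlen] at this
      omega
  · rw [not_forall] at h
    obtain ⟨v, hv⟩ := h
    rw [Classical.not_imp] at hv
    rw [Finset.prod_eq_zero (Finset.mem_univ v), if_neg, Polynomial.coeff_zero]
    · intro h'
      apply hv.2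
      rw [h', onesOn_apply, if_neg (fun h' => hv.1 (List.mem_toFinset.1 h'))]
    · unfold sub
      rw [if_neg hv.1, zero_pow hv.2]

theorem extract (Q : List P) (hQ : Q.Nodup) (G : MvPolynomial P ℤ)
    (hG : G.IsHomogeneous Q.length) :
    (MvPolynomial.eval₂Hom Polynomial.C (sub Q) G).coeff (2 ^ Q.length - 1) =
      MvPolynomial.coeff (onesOn Q.toFinset) G := by
  rw [MvPolynomial.coe_eval₂Hom, MvPolynomial.eval₂_eq', Polynomial.finsetSum_coeff]
  have h1 : ∀ d ∈ G.support, (Polynomial.C (MvPolynomial.coeff d G) * ∏ v, sub Q v ^ d v).coeff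
      (2 ^ Q.length - 1) = if d = onesOn Q.toFinset then MvPolynomial.coeff d G else 0 := by
    intro d hd
    have h2 : d.degree = Q.length := by
      rw [MvPolynomial.mem_support_iff] at hd
      have := hG hd
      rw [← this]
      simp [Finsupp.weight_apply, Finsupp.degree, Finsupp.sum]
      try rfl
    have h3 : ∑ v, d v = Q.length := by
      rw [← h2, Finsupp.degree_eq_sum]
    rw [Polynomial.coeff_C_mul, coeff_prod_sub Q hQ d h3]
    split_ifs <;> simp
  rw [Finset.sum_congr rfl h1, Finset.sum_ite_eq']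
  by_cases h4 : onesOn Q.toFinset ∈ G.support
  · rw [if_pos h4]
  · rw [if_neg h4]
    rw [MvPolynomial.mem_support_iff, not_not] at h4
    exact h4.symm

end

/-! ### Bounds for the coefficients -/

/-- the coefficients of `p` are dominated by those of a polynomial with value `c` at `1`. -/
def Dom (p : Polynomial ℤ) (c : ℕ) : Prop :=
  ∃ q : Polynomial ℤ, (∀ i, |p.coeff i| ≤ q.coeff i) ∧ q.eval 1 = (c : ℤ)

theorem Dom.le {p : Polynomial ℤ} {c : ℕ} (h : Dom p c) (i : ℕ) : |p.coeff i| ≤ (c : ℤ) := by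
  obtain ⟨q, h1, h2⟩ := h
  have h0 : ∀ j, 0 ≤ q.coeff j := fun j => (abs_nonneg _).trans (h1 j)
  refine (h1 i).trans ?_
  rw [← h2, Polynomial.eval_eq_sum_range]
  simp only [one_pow, mul_one]
  by_cases hi : i ≤ q.natDegree
  · exact Finset.single_le_sum (f := fun j => q.coeff j) (fun j _ => h0 j)
      (Finset.mem_range.2 (by omega))
  · rw [Polynomial.coeff_eq_zero_of_natDegree_lt (by omega)]
    exact Finset.sum_nonneg fun j _ => h0 j

theorem Dom.add {p p' : Polynomial ℤ} {c c' : ℕ} (h : Dom p c) (h' : Dom p' c') :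
    Dom (p + p') (c + c') := by
  obtain ⟨q, h1, h2⟩ := h
  obtain ⟨q', h1', h2'⟩ := h'
  refine ⟨q + q', fun i => ?_, ?_⟩
  · rw [Polynomial.coeff_add, Polynomial.coeff_add]
    exact (abs_add_le _ _).trans (add_le_add (h1 i) (h1' i))
  · rw [Polynomial.eval_add, h2, h2']; push_cast; rfl

theorem Dom.sub {p p' : Polynomial ℤ} {c c' : ℕ} (h : Dom p c) (h' : Dom p' c') :
    Dom (p - p') (c + c') := by
  obtain ⟨q, h1, h2⟩ := h
  obtain ⟨q', h1', h2'⟩ := h'
  refine ⟨q + q', fun i => ?_, ?_⟩
  · rw [Polynomial.coeff_sub, Polynomial.coeff_add]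
    exact (abs_sub _ _).trans (add_le_add (h1 i) (h1' i))
  · rw [Polynomial.eval_add, h2, h2']; push_cast; rfl

theorem Dom.mul {p p' : Polynomial ℤ} {c c' : ℕ} (h : Dom p c) (h' : Dom p' c') :
    Dom (p * p') (c * c') := by
  obtain ⟨q, h1, h2⟩ := h
  obtain ⟨q', h1', h2'⟩ := h'
  refine ⟨q * q', fun i => ?_, ?_⟩
  · rw [Polynomial.coeff_mul, Polynomial.coeff_mul]
    refine (Finset.abs_sum_le_sum_abs _ _).trans (Finset.sum_le_sum fun x _ => ?_)
    rw [abs_mul]
    exact mul_le_mul (h1 _) (h1' _) (abs_nonneg _) ((abs_nonneg _).trans (h1 _))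
  · rw [Polynomial.eval_mul, h2, h2']; push_cast; rfl

theorem dom_chw (f : ℕ → ℕ) (k : ℕ) (l : List ℕ) :
    Dom (chw (fun c => (Polynomial.X : Polynomial ℤ) ^ f c) k l) (chw (fun _ => (1 : ℕ)) k l) := by
  have h1 : chw (fun c => (Polynomial.X : Polynomial ℤ) ^ f c) k l =
      (Polynomial.mapRingHom (Nat.castRingHom ℤ))
        (chw (fun c => (Polynomial.X : Polynomial ℕ) ^ f c) k l) := by
    rw [chw_map]
    congr 1
    funext c
    simp
  refine ⟨chw (fun c => (Polynomial.X : Polynomial ℤ) ^ f c) k l, fun i => ?_, ?_⟩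
  · rw [h1, Polynomial.coe_mapRingHom, Polynomial.coeff_map]
    exact (abs_of_nonneg (by simp)).le
  · rw [← Polynomial.coe_evalRingHom, chw_map]
    have h2 := chw_map (fun _ => (1 : ℕ)) (Nat.castRingHom ℤ) k l
    rw [eq_natCast] at h2
    rw [h2]
    congr 1
    funext c
    simp

/-! ### Digit extraction -/

/-- the digit in position `D`, in base `2 ^ w`. -/
def dig (w D r : ℕ) : ℕ := ((r + 2 ^ (w * D - 1)) >>> (w * D)) % 2 ^ w

theorem dig_spec (p : Polynomial ℤ) (K w D r : ℕ) (hK : ∀ i, |p.coeff i| ≤ (K : ℤ))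
    (hw : 2 * K + 2 ≤ 2 ^ w) (hw0 : 0 < w) (hD : 0 < D)
    (hr : (r : ℤ) ≡ p.eval (2 ^ w) [ZMOD 2 ^ (w * (D + 1))]) :
    (dig w D r : ℤ) ≡ p.coeff D [ZMOD 2 ^ w] := by
  have hwZ : 2 * (K : ℤ) + 2 ≤ 2 ^ w := by exact_mod_cast hw
  obtain ⟨B, hB⟩ : ∃ B : ℤ, B = 2 ^ w := ⟨_, rfl⟩
  have hBD : ∀ n : ℕ, (2 : ℤ) ^ (w * n) = B ^ n := fun n => by rw [hB, pow_mul]
  rw [hBD, ← hB] at hr
  rw [← hB] at hwZ
  have hB1 : 2 ≤ B := by have : (0 : ℤ) ≤ K := Int.natCast_nonneg K
                         linarith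
  rw [Polynomial.eval_eq_sum_range' (n := D + 1 + (p.natDegree + 1)) (by omega),
    Finset.sum_range_add, Finset.sum_range_succ] at hr
  set L := ∑ i ∈ range D, p.coeff i * B ^ i with hL
  have hU : ∃ u : ℤ, ∑ x ∈ range (p.natDegree + 1), p.coeff (D + 1 + x) * B ^ (D + 1 + x) =
      B ^ (D + 1) * u := by
    refine ⟨∑ x ∈ range (p.natDegree + 1), p.coeff (D + 1 + x) * B ^ x, ?_⟩
    rw [Finset.mul_sum]
    refine Finset.sum_congr rfl fun x _ => ?_
    rw [pow_add B (D + 1) x]; ring
  obtain ⟨u, hu⟩ := hU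
  rw [hu] at hr
  obtain ⟨t, ht⟩ := Int.modEq_iff_dvd.1 hr
  have hr' : (r : ℤ) = L + (p.coeff D + B * (u - t)) * B ^ D := by
    have : (r : ℤ) = L + p.coeff D * B ^ D + B ^ (D + 1) * u - B ^ (D + 1) * t := by linarith
    rw [this]; ring
  have hLb : 2 * |L| < B ^ D := by
    have h1 : |L| ≤ K * ∑ i ∈ range D, B ^ i := by
      rw [hL, Finset.mul_sum]
      refine (Finset.abs_sum_le_sum_abs _ _).trans (Finset.sum_le_sum fun i _ => ?_)
      rw [abs_mul, abs_of_nonneg (by positivity : (0 : ℤ) ≤ B ^ i)]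
      exact mul_le_mul_of_nonneg_right (hK i) (by positivity)
    have h2 := geom_sum_mul B D
    have h3 : (0 : ℤ) ≤ ∑ i ∈ range D, B ^ i := Finset.sum_nonneg fun i _ => by positivity
    nlinarith
  have hhalf : (2 : ℤ) * 2 ^ (w * D - 1) = B ^ D := by
    rw [← hBD, ← pow_succ']
    congr 1
    have : 0 < w * D := Nat.mul_pos hw0 hD
    omega
  have hLb' := abs_lt.1 (show |L| < 2 ^ (w * D - 1) by linarith)
  unfold dig
  rw [Nat.shiftRight_eq_div_pow]
  push_cast
  rw [hBD, hr', ← hB]
  have h5 : (L + (p.coeff D + B * (u - t)) * B ^ D + 2 ^ (w * D - 1)) / B ^ D =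
      p.coeff D + B * (u - t) := by
    have : L + (p.coeff D + B * (u - t)) * B ^ D + 2 ^ (w * D - 1) =
      (L + 2 ^ (w * D - 1)) + (p.coeff D + B * (u - t)) * B ^ D := by ring
    rw [this, Int.add_mul_ediv_right _ _ (by positivity), Int.ediv_eq_zero_of_lt (by linarith)
      (by linarith), zero_add]
  rw [h5]
  refine (Int.mod_modEq _ _).trans ?_
  exact Int.modEq_iff_dvd.2 ⟨-(u - t), by ring⟩

end PartFour

end Pool.Agent.H70.Schur
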