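import Pool.Agent.H70.Schur2
import Pool.Agent.H70.Schur4

set_option autoImplicit false
open Finset

namespace Pool.Agent.H70.Schur

section PartFive

/-! ### The tables -/

/-- sum of two rows. -/
def addRow (r s : List ℕ) : List ℕ := List.zipWith (· + ·) r s

/-- change the rows with index at most `h`. -/
def stepAux (h : ℕ) (sh : List ℕ) : ℕ → List (List ℕ) → List (List ℕ)
  | _, [] => []
  | j, r :: T => (if j ≤ h then addRow r sh else r) :: stepAux h sh (j + 1) T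

/-- one more element, of height `h`, with weight `2 ^ e`. -/
def step (e h : ℕ) (T : List (List ℕ)) : List (List ℕ) :=
  stepAux h (0 :: (T.getD h []).map (fun x => x <<< e)) 0 T

/-- the table for a list of heights. -/
def hTable (w : ℕ) : List ℕ → List (List ℕ)
  | [] => List.replicate 5 [1, 0, 0, 0, 0, 0, 0, 0, 0, 0]
  | h :: t => step (w * 2 ^ t.length) h (hTable w t)

theorem stepAux_map (h : ℕ) (sh : List ℕ) (row : ℕ → List ℕ) (n j : ℕ) :
    stepAux h sh j ((List.range' j n).map row) =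
      (List.range' j n).map fun i => if i ≤ h then addRow (row i) sh else row i := by
  induction n generalizing j with
  | zero => rfl
  | succ n ih =>
    rw [List.range'_succ, List.map_cons, List.map_cons, stepAux, ih]

/-- the row predicted. -/
def prow (w : ℕ) (l : List ℕ) (j : ℕ) : List ℕ :=
  (List.range 10).map fun k => chw (fun c => 2 ^ (w * ex l c)) k (l.filter fun c => j ≤ c % 5)

theorem prow_cons_lt (w v : ℕ) (l : List ℕ) (hv : v ∉ l) (j : ℕ) (hj : ¬ j ≤ v % 5) :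
    prow w (v :: l) j = prow w l j := by
  unfold prow
  apply List.map_congr_left
  intro k _
  rw [List.filter_cons_of_neg (by simpa using hj)]
  apply chw_congr
  intro c hc
  have : c ≠ v := fun h => hv (h ▸ (List.mem_filter.1 hc).1)
  simp [ex, this]

theorem prow_cons_le (w v : ℕ) (l : List ℕ) (hv : v ∉ l) (j : ℕ) (hj : j ≤ v % 5) :
    prow w (v :: l) j =
      addRow (prow w l j) (0 :: (prow w l (v % 5)).map fun x => x <<< (w * 2 ^ l.length)) := by
  have hex : ∀ c ∈ l, ex (v :: l) c = ex l c := by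
    intro c hc
    have : c ≠ v := fun h => hv (h ▸ hc)
    simp [ex, this]
  have h1 : ∀ k, chw (fun c => 2 ^ (w * ex (v :: l) c)) (k + 1)
      ((v :: l).filter fun c => j ≤ c % 5) =
      chw (fun c => 2 ^ (w * ex l c)) (k + 1) (l.filter fun c => j ≤ c % 5) +
      chw (fun c => 2 ^ (w * ex l c)) k (l.filter fun c => v % 5 ≤ c % 5) <<<
        (w * 2 ^ l.length) := by
    intro k
    rw [List.filter_cons_of_pos (by simpa using hj), chw_cons, Nat.shiftLeft_eq, mul_comm (chw _ k _)]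
    congr 1
    · apply chw_congr
      intro c hc
      rw [hex c (List.mem_filter.1 hc).1]
    · congr 1
      · simp [ex]
      · rw [List.filter_filter]
        have h2 : (l.filter fun c => decide (v % 5 ≤ c % 5) && decide (j ≤ c % 5)) =
            l.filter fun c => decide (v % 5 ≤ c % 5) := by
          apply List.filter_congr
          intro c _
          by_cases h3 : v % 5 ≤ c % 5
          · simp [h3, hj.trans h3]
          · simp [h3]
        rw [h2]
        apply chw_congr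
        intro c hc
        rw [hex c (List.mem_filter.1 hc).1]
  have e10 : List.range 10 = [0, 1, 2, 3, 4, 5, 6, 7, 8, 9] := rfl
  unfold prow
  rw [e10]
  simp only [List.map_cons, List.map_nil]
  rw [h1 0, h1 1, h1 2, h1 3, h1 4, h1 5, h1 6, h1 7, h1 8]
  rfl

theorem hTable_spec (w : ℕ) (l : List ℕ) (hl : l.Nodup) :
    hTable w (l.map (· % 5)) = (List.range' 0 5).map (prow w l) := by
  induction l with
  | nil => rfl
  | cons v l ih =>
    rw [List.nodup_cons] at hl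
    rw [List.map_cons, hTable, ih hl.2, List.length_map, step, stepAux_map]
    apply List.map_congr_left
    intro j _
    have hv5 : v % 5 < 5 := Nat.mod_lt _ (by norm_num)
    have h1 : ((List.range' 0 5).map (prow w l)).getD (v % 5) [] = prow w l (v % 5) := by
      rw [List.getD_eq_getElem _ _ (by simpa using hv5)]
      simp
    rw [h1]
    by_cases hj : j ≤ v % 5
    · rw [if_pos hj, prow_cons_le w v l hl.1 j hj]
    · rw [if_neg hj, prow_cons_lt w v l hl.1 j hj]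

/-- the numbers. -/
def rowv (w : ℕ) (hts : List ℕ) : List ℕ := (hTable w hts).getD 0 []

theorem rowv_spec (w : ℕ) (l : List ℕ) (hl : l.Nodup) (k : ℕ) (hk : k < 10) :
    (rowv w (l.map (· % 5))).getD k 0 = chw (fun c => 2 ^ (w * ex l c)) k l := by
  unfold rowv
  rw [hTable_spec w l hl]
  have h1 : ((List.range' 0 5).map (prow w l)).getD 0 [] = prow w l 0 := rfl
  rw [h1, prow, List.getD_eq_getElem _ _ (by simpa using hk)]
  simp

/-! ### Modular arithmetic -/

/-- reduction modulo `2 ^ E`. -/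
def md (E x : ℕ) : ℕ := x &&& (2 ^ E - 1)

/-- subtraction modulo `2 ^ E`. -/
def sb (E x y : ℕ) : ℕ := md E (md E x + (2 ^ E - md E y))

/-- the value of `e8 ^ 2 - e7 * e9` modulo `2 ^ E`. -/
def comp (E : ℕ) (row : List ℕ) : ℕ :=
  let h1 := row.getD 1 0
  let h2 := row.getD 2 0
  let h3 := row.getD 3 0
  let h4 := row.getD 4 0
  let h5 := row.getD 5 0
  let h6 := row.getD 6 0
  let h7 := row.getD 7 0
  let h8 := row.getD 8 0
  let h9 := row.getD 9 0
  let e1 := h1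
  let e2 := sb E (h1 * e1) h2
  let e3 := sb E (h1 * e2 + h3) (h2 * e1)
  let e4 := sb E (h1 * e3 + h3 * e1) (h2 * e2 + h4)
  let e5 := sb E (h1 * e4 + h3 * e2 + h5) (h2 * e3 + h4 * e1)
  let e6 := sb E (h1 * e5 + h3 * e3 + h5 * e1) (h2 * e4 + h4 * e2 + h6)
  let e7 := sb E (h1 * e6 + h3 * e4 + h5 * e2 + h7) (h2 * e5 + h4 * e3 + h6 * e1)
  let e8 := sb E (h1 * e7 + h3 * e5 + h5 * e3 + h7 * e1) (h2 * e6 + h4 * e4 + h6 * e2 + h8)
  let e9 := sb E (h1 * e8 + h3 * e6 + h5 * e4 + h7 * e2 + h9)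
    (h2 * e7 + h4 * e5 + h6 * e3 + h8 * e1)
  sb E (e8 * e8) (e7 * e9)

theorem md_eq (E x : ℕ) : md E x = x % 2 ^ E := Nat.and_two_pow_sub_one_eq_mod _ _

theorem sb_cast (E x y : ℕ) :
    ((sb E x y : ℕ) : ZMod (2 ^ E)) = (x : ZMod (2 ^ E)) - (y : ZMod (2 ^ E)) := by
  have h2 : y % 2 ^ E ≤ 2 ^ E := (Nat.mod_lt _ (by positivity)).le
  unfold sb
  rw [md_eq, md_eq, md_eq]
  rw [ZMod.natCast_mod, Nat.cast_add, ZMod.natCast_mod, Nat.cast_sub h2, ZMod.natCast_self,
    ZMod.natCast_mod]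
  ring

theorem comp_spec (E : ℕ) (row : List ℕ) (h : ℕ → ZMod (2 ^ E)) (hh : ∀ k, 1 ≤ k → k ≤ 9 →
    ((row.getD k 0 : ℕ) : ZMod (2 ^ E)) = h k) :
    ((comp E row : ℕ) : ZMod (2 ^ E)) = e8 h * e8 h - e7 h * e9 h := by
  unfold comp
  extract_lets h1 h2 h3 h4 h5 h6 h7 h8 h9 f1 f2 f3 f4 f5 f6 f7 f8 f9
  have H1 : (h1 : ZMod (2 ^ E)) = h 1 := hh 1 (by norm_num) (by norm_num)
  have H2 : (h2 : ZMod (2 ^ E)) = h 2 := hh 2 (by norm_num) (by norm_num)
  have H3 : (h3 : ZMod (2 ^ E)) = h 3 := hh 3 (by norm_num) (by norm_num)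
  have H4 : (h4 : ZMod (2 ^ E)) = h 4 := hh 4 (by norm_num) (by norm_num)
  have H5 : (h5 : ZMod (2 ^ E)) = h 5 := hh 5 (by norm_num) (by norm_num)
  have H6 : (h6 : ZMod (2 ^ E)) = h 6 := hh 6 (by norm_num) (by norm_num)
  have H7 : (h7 : ZMod (2 ^ E)) = h 7 := hh 7 (by norm_num) (by norm_num)
  have H8 : (h8 : ZMod (2 ^ E)) = h 8 := hh 8 (by norm_num) (by norm_num)
  have H9 : (h9 : ZMod (2 ^ E)) = h 9 := hh 9 (by norm_num) (by norm_num)
  have F1 : (f1 : ZMod (2 ^ E)) = e1 h := H1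
  have F2 : (f2 : ZMod (2 ^ E)) = e2 h := by
    simp only [f2, sb_cast, Nat.cast_mul, F1, H1, H2, e2]
  have F3 : (f3 : ZMod (2 ^ E)) = e3 h := by
    simp only [f3, sb_cast, Nat.cast_mul, Nat.cast_add, F1, F2, H1, H2, H3, e3]; ring
  have F4 : (f4 : ZMod (2 ^ E)) = e4 h := by
    simp only [f4, sb_cast, Nat.cast_mul, Nat.cast_add, F1, F2, F3, H1, H2, H3, H4, e4]; ring
  have F5 : (f5 : ZMod (2 ^ E)) = e5 h := by
    simp only [f5, sb_cast, Nat.cast_mul, Nat.cast_add, F1, F2, F3, F4, H1, H2, H3, H4, H5, e5]; ring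
  have F6 : (f6 : ZMod (2 ^ E)) = e6 h := by
    simp only [f6, sb_cast, Nat.cast_mul, Nat.cast_add, F1, F2, F3, F4, F5, H1, H2, H3, H4, H5, H6,
      e6]; ring
  have F7 : (f7 : ZMod (2 ^ E)) = e7 h := by
    simp only [f7, sb_cast, Nat.cast_mul, Nat.cast_add, F1, F2, F3, F4, F5, F6, H1, H2, H3, H4, H5,
      H6, H7, e7]; ring
  have F8 : (f8 : ZMod (2 ^ E)) = e8 h := by
    simp only [f8, sb_cast, Nat.cast_mul, Nat.cast_add, F1, F2, F3, F4, F5, F6, F7, H1, H2, H3, H4,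
      H5, H6, H7, H8, e8]; ring
  have F9 : (f9 : ZMod (2 ^ E)) = e9 h := by
    simp only [f9, sb_cast, Nat.cast_mul, Nat.cast_add, F1, F2, F3, F4, F5, F6, F7, F8, H1, H2, H3,
      H4, H5, H6, H7, H8, H9, e9]; ring
  rw [sb_cast, Nat.cast_mul, Nat.cast_mul, F7, F8, F9]

/-- the bound. -/
def bnd (row : List ℕ) : ℕ :=
  let h1 := row.getD 1 0
  let h2 := row.getD 2 0
  let h3 := row.getD 3 0
  let h4 := row.getD 4 0
  let h5 := row.getD 5 0
  let h6 := row.getD 6 0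
  let h7 := row.getD 7 0
  let h8 := row.getD 8 0
  let h9 := row.getD 9 0
  let e1 := h1
  let e2 := h1 * e1 + h2
  let e3 := h1 * e2 + h2 * e1 + h3
  let e4 := h1 * e3 + h2 * e2 + h3 * e1 + h4
  let e5 := h1 * e4 + h2 * e3 + h3 * e2 + h4 * e1 + h5
  let e6 := h1 * e5 + h2 * e4 + h3 * e3 + h4 * e2 + h5 * e1 + h6
  let e7 := h1 * e6 + h2 * e5 + h3 * e4 + h4 * e3 + h5 * e2 + h6 * e1 + h7
  let e8 := h1 * e7 + h2 * e6 + h3 * e5 + h4 * e4 + h5 * e3 + h6 * e2 + h7 * e1 + h8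
  let e9 := h1 * e8 + h2 * e7 + h3 * e6 + h4 * e5 + h5 * e4 + h6 * e3 + h7 * e2 + h8 * e1 + h9
  e8 * e8 + e7 * e9

theorem bnd_spec (row : List ℕ) (h : ℕ → Polynomial ℤ)
    (hh : ∀ k, 1 ≤ k → k ≤ 9 → Dom (h k) (row.getD k 0)) :
    Dom (e8 h * e8 h - e7 h * e9 h) (bnd row) := by
  unfold bnd
  extract_lets h1 h2 h3 h4 h5 h6 h7 h8 h9 f1 f2 f3 f4 f5 f6 f7 f8 f9
  have H1 : Dom (h 1) h1 := hh 1 (by norm_num) (by norm_num)
  have H2 : Dom (h 2) h2 := hh 2 (by norm_num) (by norm_num)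
  have H3 : Dom (h 3) h3 := hh 3 (by norm_num) (by norm_num)
  have H4 : Dom (h 4) h4 := hh 4 (by norm_num) (by norm_num)
  have H5 : Dom (h 5) h5 := hh 5 (by norm_num) (by norm_num)
  have H6 : Dom (h 6) h6 := hh 6 (by norm_num) (by norm_num)
  have H7 : Dom (h 7) h7 := hh 7 (by norm_num) (by norm_num)
  have H8 : Dom (h 8) h8 := hh 8 (by norm_num) (by norm_num)
  have H9 : Dom (h 9) h9 := hh 9 (by norm_num) (by norm_num)
  have F1 : Dom (e1 h) f1 := H1
  have F2 : Dom (e2 h) f2 := (H1.mul F1).sub H2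
  have F3 : Dom (e3 h) f3 := ((H1.mul F2).sub (H2.mul F1)).add H3
  have F4 : Dom (e4 h) f4 := (((H1.mul F3).sub (H2.mul F2)).add (H3.mul F1)).sub H4
  have F5 : Dom (e5 h) f5 :=
    ((((H1.mul F4).sub (H2.mul F3)).add (H3.mul F2)).sub (H4.mul F1)).add H5
  have F6 : Dom (e6 h) f6 :=
    (((((H1.mul F5).sub (H2.mul F4)).add (H3.mul F3)).sub (H4.mul F2)).add (H5.mul F1)).sub H6
  have F7 : Dom (e7 h) f7 :=
    ((((((H1.mul F6).sub (H2.mul F5)).add (H3.mul F4)).sub (H4.mul F3)).add (H5.mul F2)).sub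
      (H6.mul F1)).add H7
  have F8 : Dom (e8 h) f8 :=
    (((((((H1.mul F7).sub (H2.mul F6)).add (H3.mul F5)).sub (H4.mul F4)).add (H5.mul F3)).sub
      (H6.mul F2)).add (H7.mul F1)).sub H8
  have F9 : Dom (e9 h) f9 :=
    ((((((((H1.mul F8).sub (H2.mul F7)).add (H3.mul F6)).sub (H4.mul F5)).add (H5.mul F4)).sub
      (H6.mul F3)).add (H7.mul F2)).sub (H8.mul F1)).add H9
  exact (F8.mul F8).sub (F7.mul F9)

end PartFive

end Pool.Agent.H70.Schur
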