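import Pool.Agent.H70.Schur5

set_option autoImplicit false
open Finset

namespace Pool.Agent.H70.Schur

section PartSix

/-! ### The product of two chains with five elements -/

/-- the ground set. -/
abbrev PP : Type := Fin 2 → Fin 5

/-- the point with a given code. -/
def pt (c : ℕ) : PP := ![Fin.ofNat 5 (c / 5), Fin.ofNat 5 (c % 5)]

/-- the code of a point. -/
def cd (v : PP) : ℕ := 5 * (v 0 : ℕ) + (v 1 : ℕ)

theorem cd_lt (v : PP) : cd v < 25 := by
  unfold cd
  have := (v 0).2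
  have := (v 1).2
  omega

theorem cd_mod (v : PP) : cd v % 5 = (v 1 : ℕ) := by
  unfold cd
  have := (v 1).2
  omega

theorem cd_div (v : PP) : cd v / 5 = (v 0 : ℕ) := by
  unfold cd
  have := (v 1).2
  omega

theorem pt_zero (c : ℕ) (hc : c < 25) : ((pt c 0 : Fin 5) : ℕ) = c / 5 := by
  simp [pt, Fin.ofNat]
  omega

theorem pt_one (c : ℕ) : ((pt c 1 : Fin 5) : ℕ) = c % 5 := by
  simp [pt, Fin.ofNat]

theorem cd_pt (c : ℕ) (hc : c < 25) : cd (pt c) = c := by
  unfold cd
  rw [pt_zero c hc, pt_one c]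
  omega

theorem pt_cd (v : PP) : pt (cd v) = v := by
  funext i
  apply Fin.ext
  fin_cases i
  · exact (pt_zero _ (cd_lt v)).trans (cd_div v)
  · exact (pt_one _).trans (cd_mod v)

theorem cd_inj {u v : PP} (h : cd u = cd v) : u = v := by
  rw [← pt_cd u, h, pt_cd]

open Classical in
/-- the chains. -/
noncomputable def FF : Finset (Finset PP) :=
  univ.filter fun S => ∀ u ∈ S, ∀ v ∈ S, u ≤ v ∨ v ≤ u

theorem mem_FF (S : Finset PP) : S ∈ FF ↔ ∀ u ∈ S, ∀ v ∈ S, u ≤ v ∨ v ≤ u := by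
  simp [FF]

theorem chain_iff (S : Finset PP) : S ∈ FF ↔ isC (S.image cd) := by
  rw [mem_FF]
  constructor
  · intro h a ha b hb hab
    rw [mem_image] at ha hb
    obtain ⟨u, hu, rfl⟩ := ha
    obtain ⟨v, hv, rfl⟩ := hb
    rw [cd_mod, cd_mod]
    rcases h u hu v hv with h1 | h1
    · exact h1 1
    · have h2 : cd v ≤ cd u := by
        unfold cd
        have a1 : (v 0 : ℕ) ≤ u 0 := h1 0
        have a2 : (v 1 : ℕ) ≤ u 1 := h1 1
        omega
      rw [cd_inj (le_antisymm hab h2)]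
  · intro h
    have key : ∀ u ∈ S, ∀ v ∈ S, cd u ≤ cd v → u ≤ v := by
      intro u hu v hv huv i
      have h1 := h (cd u) (mem_image_of_mem _ hu) (cd v) (mem_image_of_mem _ hv) huv
      have h2 := Nat.div_le_div_right (c := 5) huv
      rw [cd_mod, cd_mod] at h1
      rw [cd_div, cd_div] at h2
      fin_cases i
      · exact h2
      · exact h1
    intro u hu v hv
    rcases le_total (cd u) (cd v) with h1 | h1
    · exact Or.inl (key u hu v hv h1)
    · exact Or.inr (key v hv u hu h1)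

/-- the homogeneous parts of the chain generating function. -/
noncomputable def HH (k : ℕ) : MvPolynomial PP ℤ := Hs FF k 0

theorem image_pt_image_cd (S : Finset PP) : (S.image cd).image pt = S := by
  rw [image_image]
  ext v
  rw [mem_image]
  constructor
  · rintro ⟨u, hu, rfl⟩
    simpa [pt_cd] using hu
  · intro hv
    exact ⟨v, hv, pt_cd v⟩

theorem image_cd_image_pt (S : Finset ℕ) (h : ∀ c ∈ S, c < 25) : (S.image pt).image cd = S := by
  rw [image_image]
  ext c
  rw [mem_image]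
  constructor
  · rintro ⟨a, ha, rfl⟩
    simpa [cd_pt a (h a ha)] using ha
  · intro hc
    exact ⟨c, hc, cd_pt c (h c hc)⟩

theorem HH_eq (k : ℕ) :
    HH k = chw (fun c => (MvPolynomial.X (pt c) : MvPolynomial PP ℤ)) k (List.range 25) := by
  classical
  rw [← sum_chains _ k _ List.pairwise_lt_range, ← Finset.sum_filter]
  unfold HH Hs
  refine Finset.sum_nbij' (fun S => S.image cd) (fun S => S.image pt) ?_ ?_ ?_ ?_ ?_
  · intro S hS
    rw [mem_filter] at hS ⊢
    refine ⟨?_, (chain_iff S).1 hS.1, ?_⟩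
    · rw [mem_powerset]
      intro c hc
      rw [mem_image] at hc
      obtain ⟨v, _, rfl⟩ := hc
      rw [List.mem_toFinset, List.mem_range]
      exact cd_lt v
    · rw [card_image_of_injective _ (fun _ _ h => cd_inj h)]
      exact hS.2
  · intro S hS
    rw [mem_filter, mem_powerset] at hS
    have h25 : ∀ c ∈ S, c < 25 := by
      intro c hc
      have := hS.1 hc
      rwa [List.mem_toFinset, List.mem_range] at this
    have h1 := image_cd_image_pt S h25
    rw [mem_filter]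
    refine ⟨?_, ?_⟩
    · rw [chain_iff, h1]; exact hS.2.1
    · rw [← card_image_of_injective (S.image pt) (fun _ _ h => cd_inj h), h1]
      exact hS.2.2
  · intro S _
    exact image_pt_image_cd S
  · intro S hS
    rw [mem_filter, mem_powerset] at hS
    apply image_cd_image_pt
    intro c hc
    have := hS.1 hc
    rwa [List.mem_toFinset, List.mem_range] at this
  · intro S _
    rw [prod_image (fun _ _ _ _ h => cd_inj h)]
    refine prod_congr rfl fun v _ => ?_
    rw [pt_cd]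

theorem HH_zero : HH 0 = 1 := by
  rw [HH_eq]; rfl

theorem card_chain_le (S : Finset PP) (hS : S ∈ FF) : S.card ≤ 9 := by
  rw [mem_FF] at hS
  have h1 : (S.image fun v : PP => (v 0 : ℕ) + (v 1 : ℕ)).card = S.card := by
    apply card_image_of_injOn
    intro u hu v hv huv
    have huv' : (u 0 : ℕ) + (u 1 : ℕ) = (v 0 : ℕ) + (v 1 : ℕ) := huv
    rcases hS u hu v hv with h | h
    · have a1 : (u 0 : ℕ) ≤ v 0 := h 0
      have a2 : (u 1 : ℕ) ≤ v 1 := h 1
      funext i
      apply Fin.ext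
      fin_cases i
      · show (u 0 : ℕ) = v 0
        omega
      · show (u 1 : ℕ) = v 1
        omega
    · have a1 : (v 0 : ℕ) ≤ u 0 := h 0
      have a2 : (v 1 : ℕ) ≤ u 1 := h 1
      funext i
      apply Fin.ext
      fin_cases i
      · show (u 0 : ℕ) = v 0
        omega
      · show (u 1 : ℕ) = v 1
        omega
  rw [← h1]
  have h2 : (S.image fun v : PP => (v 0 : ℕ) + (v 1 : ℕ)) ⊆ range 9 := by
    intro x hx
    rw [mem_image] at hx
    obtain ⟨v, _, rfl⟩ := hx
    have := (v 0).2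
    have := (v 1).2
    rw [mem_range]
    omega
  simpa using card_le_card h2

theorem HH_big (k : ℕ) (hk : 9 < k) : HH k = 0 := by
  unfold HH Hs
  rw [filter_eq_empty_iff.2, sum_empty]
  intro S hS h
  have := card_chain_le S hS
  omega

theorem Hs_shift (n b : ℕ) : Hs FF n b = if b ≤ n then HH (n - b) else 0 := by
  by_cases h : b ≤ n
  · rw [if_pos h]
    unfold HH Hs
    congr 1
    apply filter_congr
    intro S _
    omega
  · rw [if_neg h]
    unfold Hs
    rw [filter_eq_empty_iff.2, sum_empty]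
    intro S _ h'
    omega

theorem HH_homog (k : ℕ) : (HH k).IsHomogeneous k := by
  unfold HH Hs
  apply MvPolynomial.IsHomogeneous.sum
  intro S hS
  rw [mem_filter] at hS
  have h1 : (∏ v ∈ S, (MvPolynomial.X v : MvPolynomial PP ℤ)).IsHomogeneous (∑ _v ∈ S, 1) :=
    MvPolynomial.IsHomogeneous.prod S _ _ fun v _ => MvPolynomial.isHomogeneous_X ℤ v
  have h2 : ∑ _v ∈ S, 1 = k := by simpa using hS.2
  rwa [h2] at h1

/-- the second factor. -/
noncomputable def GG : MvPolynomial PP ℤ := e8 HH * e8 HH - e7 HH * e9 HH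

theorem GG_homog : GG.IsHomogeneous 16 := by
  have H := HH_homog
  have m : ∀ {a b : ℕ} {p q : MvPolynomial PP ℤ}, p.IsHomogeneous a → q.IsHomogeneous b →
    ∀ c, a + b = c → (p * q).IsHomogeneous c := fun hp hq c hc => hc ▸ hp.mul hq
  have E1 : (e1 HH).IsHomogeneous 1 := H 1
  have E2 : (e2 HH).IsHomogeneous 2 := (m (H 1) E1 2 rfl).sub (H 2)
  have E3 : (e3 HH).IsHomogeneous 3 := ((m (H 1) E2 3 rfl).sub (m (H 2) E1 3 rfl)).add (H 3)
  have E4 : (e4 HH).IsHomogeneous 4 :=
    (((m (H 1) E3 4 rfl).sub (m (H 2) E2 4 rfl)).add (m (H 3) E1 4 rfl)).sub (H 4)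
  have E5 : (e5 HH).IsHomogeneous 5 :=
    ((((m (H 1) E4 5 rfl).sub (m (H 2) E3 5 rfl)).add (m (H 3) E2 5 rfl)).sub
      (m (H 4) E1 5 rfl)).add (H 5)
  have E6 : (e6 HH).IsHomogeneous 6 :=
    (((((m (H 1) E5 6 rfl).sub (m (H 2) E4 6 rfl)).add (m (H 3) E3 6 rfl)).sub
      (m (H 4) E2 6 rfl)).add (m (H 5) E1 6 rfl)).sub (H 6)
  have E7 : (e7 HH).IsHomogeneous 7 :=
    ((((((m (H 1) E6 7 rfl).sub (m (H 2) E5 7 rfl)).add (m (H 3) E4 7 rfl)).sub
      (m (H 4) E3 7 rfl)).add (m (H 5) E2 7 rfl)).sub (m (H 6) E1 7 rfl)).add (H 7)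
  have E8 : (e8 HH).IsHomogeneous 8 :=
    (((((((m (H 1) E7 8 rfl).sub (m (H 2) E6 8 rfl)).add (m (H 3) E5 8 rfl)).sub
      (m (H 4) E4 8 rfl)).add (m (H 5) E3 8 rfl)).sub (m (H 6) E2 8 rfl)).add
      (m (H 7) E1 8 rfl)).sub (H 8)
  have E9 : (e9 HH).IsHomogeneous 9 :=
    ((((((((m (H 1) E8 9 rfl).sub (m (H 2) E7 9 rfl)).add (m (H 3) E6 9 rfl)).sub
      (m (H 4) E5 9 rfl)).add (m (H 5) E4 9 rfl)).sub (m (H 6) E3 9 rfl)).add
      (m (H 7) E2 9 rfl)).sub (m (H 8) E1 9 rfl)).add (H 9)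
  exact (m E8 E8 16 rfl).sub (m E7 E9 16 rfl)

theorem map_GG {R : Type} [CommRing R] (f : MvPolynomial PP ℤ →+* R) (h : ℕ → R)
    (hf : ∀ k, f (HH k) = h k) : f GG = e8 h * e8 h - e7 h * e9 h := by
  have E1 : f (e1 HH) = e1 h := hf 1
  have E2 : f (e2 HH) = e2 h := by simp only [e2, map_sub, map_mul, hf, E1]
  have E3 : f (e3 HH) = e3 h := by simp only [e3, map_sub, map_add, map_mul, hf, E1, E2]
  have E4 : f (e4 HH) = e4 h := by simp only [e4, map_sub, map_add, map_mul, hf, E1, E2, E3]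
  have E5 : f (e5 HH) = e5 h := by simp only [e5, map_sub, map_add, map_mul, hf, E1, E2, E3, E4]
  have E6 : f (e6 HH) = e6 h := by
    simp only [e6, map_sub, map_add, map_mul, hf, E1, E2, E3, E4, E5]
  have E7 : f (e7 HH) = e7 h := by
    simp only [e7, map_sub, map_add, map_mul, hf, E1, E2, E3, E4, E5, E6]
  have E8 : f (e8 HH) = e8 h := by
    simp only [e8, map_sub, map_add, map_mul, hf, E1, E2, E3, E4, E5, E6, E7]
  have E9 : f (e9 HH) = e9 h := by
    simp only [e9, map_sub, map_add, map_mul, hf, E1, E2, E3, E4, E5, E6, E7, E8]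
  rw [GG, map_sub, map_mul, map_mul, E7, E8, E9]

theorem pt_inj {a b : ℕ} (ha : a < 25) (hb : b < 25) (h : pt a = pt b) : a = b := by
  rw [← cd_pt a ha, h, cd_pt b hb]

theorem ex_map (l : List ℕ) (hl : ∀ c ∈ l, c < 25) (c : ℕ) (hc : c < 25) :
    ex (l.map pt) (pt c) = ex l c := by
  induction l with
  | nil => rfl
  | cons q t ih =>
    have h1 := ih fun c hc => hl c (List.mem_cons_of_mem _ hc)
    have h2 : pt c = pt q ↔ c = q :=
      ⟨fun h => pt_inj hc (hl q List.mem_cons_self) h, fun h => by rw [h]⟩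
    rw [List.map_cons, ex, ex, h1, List.length_map]
    by_cases h3 : c = q
    · rw [if_pos h3, if_pos (h2.2 h3)]
    · rw [if_neg h3, if_neg (fun h => h3 (h2.1 h))]

/-- signed residue. -/
def sv (w n : ℕ) : ℤ := if 2 * n < 2 ^ w then (n : ℤ) else (n : ℤ) - 2 ^ w

theorem sv_eq (w n : ℕ) (z : ℤ) (hn : n < 2 ^ w) (hz : 2 * |z| < 2 ^ w)
    (h : (n : ℤ) ≡ z [ZMOD 2 ^ w]) : z = sv w n := by
  obtain ⟨t, ht⟩ := Int.modEq_iff_dvd.1 h
  have hz' := abs_lt.1 (show |z| < 2 ^ w by have := abs_nonneg z; linarith)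
  have hn' : (n : ℤ) < 2 ^ w := by exact_mod_cast hn
  have hn0 : (0 : ℤ) ≤ n := Int.natCast_nonneg n
  have hz1 : 2 * z < 2 ^ w := by have := le_abs_self z; linarith
  have hz2 : -(2 ^ w) < 2 * z := by have := neg_abs_le z; linarith
  obtain ⟨B, hB⟩ : ∃ B : ℤ, B = 2 ^ w := ⟨_, rfl⟩
  rw [← hB] at ht hz' hn' hz1 hz2
  have hBpos : 0 < B := by rw [hB]; positivity
  have ht1 : t < 1 := by
    by_contra hcon
    have : B * 1 ≤ B * t := mul_le_mul_of_nonneg_left (by omega) hBpos.le
    linarith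
  have ht2 : -2 < t := by
    by_contra hcon
    have : B * t ≤ B * (-2) := mul_le_mul_of_nonneg_left (by omega) hBpos.le
    linarith
  unfold sv
  have hcase : 2 * n < 2 ^ w ↔ 2 * (n : ℤ) < B := by
    rw [hB]; exact_mod_cast Iff.rfl
  by_cases hc : 2 * n < 2 ^ w
  · rw [if_pos hc]
    have hc' := hcase.1 hc
    interval_cases t
    · exfalso; linarith
    · linarith
  · rw [if_neg hc]
    have hc' : B ≤ 2 * (n : ℤ) := not_lt.1 fun h => hc (hcase.2 h)
    rw [← hB]
    interval_cases t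
    · linarith
    · exfalso; linarith

/-- the computed value. -/
def TT (w D : ℕ) (hts : List ℕ) : ℕ := dig w D (comp (w * (D + 1)) (rowv w hts))

theorem value (w D : ℕ) (Q : List ℕ) (hQ : (List.range 25).filter (fun c => decide (c ∈ Q)) = Q)
    (hlen : Q.length = 16) (hD : D + 1 = 2 ^ 16) (hw : 0 < w)
    (hb : 2 * bnd (rowv 0 (Q.map (· % 5))) + 2 ≤ 2 ^ w) :
    MvPolynomial.coeff (onesOn (Q.map pt).toFinset) GG = sv w (TT w D (Q.map (· % 5))) := by
  have hQ25 : ∀ c ∈ Q, c < 25 := by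
    intro c hc
    rw [← hQ] at hc
    exact List.mem_range.1 (List.mem_filter.1 hc).1
  have hnd : Q.Nodup := by
    rw [← hQ]; exact List.nodup_range.filter _
  have hnd' : (Q.map pt).Nodup := by
    apply List.Nodup.map_on _ hnd
    intro a ha b hb h
    exact pt_inj (hQ25 a ha) (hQ25 b hb) h
  have hlen' : (Q.map pt).length = 16 := by rw [List.length_map, hlen]
  obtain ⟨φ, hφ⟩ : ∃ φ : MvPolynomial PP ℤ →+* Polynomial ℤ,
    φ = MvPolynomial.eval₂Hom Polynomial.C (sub (Q.map pt)) := ⟨_, rfl⟩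
  have hφX : ∀ c, φ (MvPolynomial.X (pt c)) = sub (Q.map pt) (pt c) := by
    intro c
    rw [hφ, MvPolynomial.coe_eval₂Hom, MvPolynomial.eval₂_X]
  obtain ⟨h, hh⟩ : ∃ h : ℕ → Polynomial ℤ,
    h = fun k => chw (fun c => (Polynomial.X : Polynomial ℤ) ^ ex Q c) k Q := ⟨_, rfl⟩
  have hφH : ∀ k, φ (HH k) = h k := by
    intro k
    rw [HH_eq, chw_map, hh, chw_filter _ (fun c => decide (c ∈ Q)) k (List.range 25), hQ]
    · apply chw_congr
      intro c hc
      rw [hφX, sub, if_pos (List.mem_map.2 ⟨c, hc, rfl⟩), ex_map Q hQ25 c (hQ25 c hc)]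
    · intro c hc hc'
      rw [hφX, sub, if_neg]
      intro hmem
      obtain ⟨a, ha, hac⟩ := List.mem_map.1 hmem
      have := pt_inj (hQ25 a ha) (List.mem_range.1 hc) hac
      rw [this] at ha
      simp [ha] at hc'
  have hG := map_GG φ h hφH
  have h1 := extract (Q.map pt) hnd' GG (by rw [hlen']; exact GG_homog)
  rw [← hφ, hG, hlen'] at h1
  have hD' : 2 ^ 16 - 1 = D := by omega
  rw [hD'] at h1
  -- the bound
  have hdom : Dom (e8 h * e8 h - e7 h * e9 h) (bnd (rowv 0 (Q.map (· % 5)))) := by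
    apply bnd_spec
    intro k _ hk
    rw [rowv_spec 0 Q hnd k (by omega), hh]
    have : chw (fun c => 2 ^ (0 * ex Q c)) k Q = chw (fun _ => (1 : ℕ)) k Q := by
      congr 1
      funext c
      rw [zero_mul, pow_zero]
    rw [this]
    exact dom_chw _ _ _
  -- the congruence
  have hcomp : ((comp (w * (D + 1)) (rowv w (Q.map (· % 5))) : ℕ) : ZMod (2 ^ (w * (D + 1)))) =
      (((e8 h * e8 h - e7 h * e9 h).eval (2 ^ w) : ℤ) : ZMod (2 ^ (w * (D + 1)))) := by
    obtain ⟨ψ, hψ⟩ : ∃ ψ : Polynomial ℤ →+* ZMod (2 ^ (w * (D + 1))),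
      ψ = (Int.castRingHom _).comp (Polynomial.evalRingHom (2 ^ w : ℤ)) := ⟨_, rfl⟩
    have h2 : (((e8 h * e8 h - e7 h * e9 h).eval (2 ^ w) : ℤ) : ZMod (2 ^ (w * (D + 1)))) =
        ψ (φ GG) := by
      rw [hG, hψ]; rfl
    rw [h2, ← RingHom.comp_apply, map_GG (ψ.comp φ) (fun k => ψ (h k))
      (fun k => by rw [RingHom.comp_apply, hφH])]
    apply comp_spec
    intro k _ hk
    rw [rowv_spec w Q hnd k (by omega), hh]
    rw [chw_map]
    have h3 := chw_map (fun c => 2 ^ (w * ex Q c)) (Nat.castRingHom (ZMod (2 ^ (w * (D + 1))))) k Q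
    rw [eq_natCast] at h3
    rw [h3]
    congr 1
    funext c
    rw [hψ, RingHom.comp_apply, Polynomial.coe_evalRingHom, Polynomial.eval_pow,
      Polynomial.eval_X]
    simp only [eq_natCast, eq_intCast]
    push_cast
    exact pow_mul _ _ _
  have hmod : ((comp (w * (D + 1)) (rowv w (Q.map (· % 5))) : ℕ) : ℤ) ≡
      (e8 h * e8 h - e7 h * e9 h).eval (2 ^ w) [ZMOD 2 ^ (w * (D + 1))] := by
    have h4 := (ZMod.intCast_eq_intCast_iff ((comp (w * (D + 1)) (rowv w (Q.map (· % 5))) : ℕ) : ℤ)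
      ((e8 h * e8 h - e7 h * e9 h).eval (2 ^ w)) (2 ^ (w * (D + 1)))).1
      (by rw [← hcomp]; push_cast; rfl)
    exact_mod_cast h4
  have hdig := dig_spec (e8 h * e8 h - e7 h * e9 h) (bnd (rowv 0 (Q.map (· % 5)))) w D _
    hdom.le hb hw (by omega) hmod
  rw [h1] at hdig
  have habs : |MvPolynomial.coeff (onesOn (Q.map pt).toFinset) GG| ≤
      (bnd (rowv 0 (Q.map (· % 5))) : ℕ) := by
    rw [← h1]; exact hdom.le D
  apply sv_eq w _ _ _ _ hdig
  · unfold dig
    exact Nat.mod_lt _ (by positivity)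
  · have : (2 : ℤ) * ((bnd (rowv 0 (Q.map (· % 5))) : ℕ) : ℤ) + 2 ≤ 2 ^ w := by exact_mod_cast hb
    linarith

/-- complementary list. -/
def cpl (t : List ℕ) : List ℕ := (List.range 25).filter fun c => decide (c ∉ t)

theorem coeff_HH9 (G : MvPolynomial PP ℤ)
    (hchk : ∀ t ∈ chs 9 (List.range 25), (List.range 25).filter (fun c => decide (c ∈ t)) = t) :
    MvPolynomial.coeff (onesOn (univ : Finset PP)) (HH 9 * G) =
      ((chs 9 (List.range 25)).map fun t =>
        MvPolynomial.coeff (onesOn ((cpl t).map pt).toFinset) G).sum := by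
  rw [HH_eq, chw_eq_chs, ← List.sum_map_mul_right]
  have h1 : ∀ L : List (MvPolynomial PP ℤ), MvPolynomial.coeff (onesOn (univ : Finset PP)) L.sum =
      (L.map (MvPolynomial.coeff (onesOn (univ : Finset PP)))).sum := by
    intro L
    induction L with
    | nil => simp
    | cons a L ih => simp [ih]
  rw [h1, List.map_map]
  congr 1
  apply List.map_congr_left
  intro t ht
  have ht' := hchk t ht
  have ht25 : ∀ c ∈ t, c < 25 := by
    intro c hc
    rw [← ht'] at hc
    exact List.mem_range.1 (List.mem_filter.1 hc).1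
  have hnd : t.Nodup := by
    rw [← ht']; exact List.nodup_range.filter _
  have hnd' : (t.map pt).Nodup := by
    apply List.Nodup.map_on _ hnd
    intro a ha b hb h
    exact pt_inj (ht25 a ha) (ht25 b hb) h
  have h2 : (t.map fun c => (MvPolynomial.X (pt c) : MvPolynomial PP ℤ)).prod =
      MvPolynomial.monomial (onesOn (t.map pt).toFinset) 1 := by
    rw [← prod_X, List.prod_toFinset _ hnd', List.map_map]
    rfl
  have h3 : onesOn (univ : Finset PP) =
      onesOn (t.map pt).toFinset + onesOn ((cpl t).map pt).toFinset := by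
    ext v
    rw [Finsupp.add_apply, onesOn_apply, onesOn_apply, onesOn_apply, if_pos (mem_univ v)]
    have a1 : v ∈ (t.map pt).toFinset ↔ cd v ∈ t := by
      rw [List.mem_toFinset, List.mem_map]
      constructor
      · rintro ⟨c, hc, rfl⟩
        rwa [cd_pt c (ht25 c hc)]
      · intro h
        exact ⟨cd v, h, pt_cd v⟩
    have a2 : v ∈ ((cpl t).map pt).toFinset ↔ cd v ∉ t := by
      rw [List.mem_toFinset, List.mem_map]
      constructor
      · rintro ⟨c, hc, rfl⟩
        unfold cpl at hc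
        rw [List.mem_filter, List.mem_range] at hc
        rw [cd_pt c hc.1]
        simpa using hc.2
      · intro h
        refine ⟨cd v, ?_, pt_cd v⟩
        unfold cpl
        rw [List.mem_filter, List.mem_range]
        exact ⟨cd_lt v, by simpa using h⟩
    by_cases h : cd v ∈ t
    · rw [if_pos (a1.2 h), if_neg (fun h' => a2.1 h' h)]
    · rw [if_neg (fun h' => h (a1.1 h')), if_pos (a2.2 h)]
  show MvPolynomial.coeff (onesOn univ) ((t.map fun c => (MvPolynomial.X (pt c) :
    MvPolynomial PP ℤ)).prod * G) = _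
  rw [h2, h3, MvPolynomial.coeff_monomial_mul, one_mul]

end PartSix

end Pool.Agent.H70.Schur
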