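import Pool.Agent.H70.Schur5

set_option autoImplicit false
set_option maxRecDepth 100000

namespace Pool.Agent.H70.Schur

theorem tv0 : dig 72 65535 (comp (72 * (65535 + 1)) (rowv 72
    [1, 2, 3, 4, 1, 2, 3, 4, 1, 2, 3, 4, 1, 2, 3, 4])) = 146088 := by
  decide +kernel

theorem tv1 : dig 72 65535 (comp (72 * (65535 + 1)) (rowv 72
    [1, 2, 3, 4, 1, 2, 3, 4, 1, 2, 3, 4, 2, 3, 4, 0])) = 4722366482869642748800 := by
  decide +kernel

theorem tv2 : dig 72 65535 (comp (72 * (65535 + 1)) (rowv 72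
    [1, 2, 3, 4, 1, 2, 3, 4, 1, 2, 3, 4, 3, 4, 0, 1])) = 1154472 := by
  decide +kernel

theorem tv3 : dig 72 65535 (comp (72 * (65535 + 1)) (rowv 72
    [1, 2, 3, 4, 1, 2, 3, 4, 1, 2, 3, 4, 4, 0, 1, 2])) = 412484 := by
  decide +kernel

theorem tv4 : dig 72 65535 (comp (72 * (65535 + 1)) (rowv 72
    [1, 2, 3, 4, 1, 2, 3, 4, 1, 2, 3, 4, 0, 1, 2, 3])) = 4722366482869645112572 := by
  decide +kernel

theorem tv5 : dig 72 65535 (comp (72 * (65535 + 1)) (rowv 72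
    [1, 2, 3, 4, 1, 2, 3, 4, 2, 3, 4, 0, 2, 3, 4, 0])) = 1154472 := by
  decide +kernel

theorem tv6 : dig 72 65535 (comp (72 * (65535 + 1)) (rowv 72
    [1, 2, 3, 4, 1, 2, 3, 4, 2, 3, 4, 0, 3, 4, 0, 1])) = 4722366482869637459390 := by
  decide +kernel

end Pool.Agent.H70.Schur
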