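import Pool.Agent.H70.Schur5

set_option autoImplicit false
set_option maxRecDepth 100000

namespace Pool.Agent.H70.Schur

theorem tv42 : dig 72 65535 (comp (72 * (65535 + 1)) (rowv 72
    [2, 3, 4, 0, 2, 3, 4, 0, 4, 0, 1, 2, 4, 0, 1, 2])) = 4964584 := by
  decide +kernel

theorem tv43 : dig 72 65535 (comp (72 * (65535 + 1)) (rowv 72
    [2, 3, 4, 0, 2, 3, 4, 0, 4, 0, 1, 2, 0, 1, 2, 3])) = 4722366482869642382392 := by
  decide +kernel

theorem tv44 : dig 72 65535 (comp (72 * (65535 + 1)) (rowv 72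
    [2, 3, 4, 0, 2, 3, 4, 0, 0, 1, 2, 3, 0, 1, 2, 3])) = 4722366482869643835092 := by
  decide +kernel

theorem tv45 : dig 72 65535 (comp (72 * (65535 + 1)) (rowv 72
    [2, 3, 4, 0, 3, 4, 0, 1, 3, 4, 0, 1, 3, 4, 0, 1])) = 614772 := by
  decide +kernel

theorem tv46 : dig 72 65535 (comp (72 * (65535 + 1)) (rowv 72
    [2, 3, 4, 0, 3, 4, 0, 1, 3, 4, 0, 1, 4, 0, 1, 2])) = 1714776 := by
  decide +kernel

theorem tv47 : dig 72 65535 (comp (72 * (65535 + 1)) (rowv 72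
    [2, 3, 4, 0, 3, 4, 0, 1, 3, 4, 0, 1, 0, 1, 2, 3])) = 4722366482869642382392 := by
  decide +kernel

theorem tv48 : dig 72 65535 (comp (72 * (65535 + 1)) (rowv 72
    [2, 3, 4, 0, 3, 4, 0, 1, 4, 0, 1, 2, 4, 0, 1, 2])) = 4722366482869639778540 := by
  decide +kernel

end Pool.Agent.H70.Schur
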