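import Pool.Agent.H70.Schur5

set_option autoImplicit false
set_option maxRecDepth 100000

namespace Pool.Agent.H70.Schur

theorem tv56 : dig 72 65535 (comp (72 * (65535 + 1)) (rowv 72
    [3, 4, 0, 1, 3, 4, 0, 1, 3, 4, 0, 1, 4, 0, 1, 2])) = 614772 := by
  decide +kernel

theorem tv57 : dig 72 65535 (comp (72 * (65535 + 1)) (rowv 72
    [3, 4, 0, 1, 3, 4, 0, 1, 3, 4, 0, 1, 0, 1, 2, 3])) = 4722366482869643835092 := by
  decide +kernel

theorem tv58 : dig 72 65535 (comp (72 * (65535 + 1)) (rowv 72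
    [3, 4, 0, 1, 3, 4, 0, 1, 4, 0, 1, 2, 4, 0, 1, 2])) = 4722366482869644478064 := by
  decide +kernel

theorem tv59 : dig 72 65535 (comp (72 * (65535 + 1)) (rowv 72
    [3, 4, 0, 1, 3, 4, 0, 1, 4, 0, 1, 2, 0, 1, 2, 3])) = 4722366482869642897848 := by
  decide +kernel

theorem tv60 : dig 72 65535 (comp (72 * (65535 + 1)) (rowv 72
    [3, 4, 0, 1, 3, 4, 0, 1, 0, 1, 2, 3, 0, 1, 2, 3])) = 1595724 := by
  decide +kernel

theorem tv61 : dig 72 65535 (comp (72 * (65535 + 1)) (rowv 72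
    [3, 4, 0, 1, 4, 0, 1, 2, 4, 0, 1, 2, 4, 0, 1, 2])) = 349312 := by
  decide +kernel

theorem tv62 : dig 72 65535 (comp (72 * (65535 + 1)) (rowv 72
    [3, 4, 0, 1, 4, 0, 1, 2, 4, 0, 1, 2, 0, 1, 2, 3])) = 2829796 := by
  decide +kernel

end Pool.Agent.H70.Schur
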