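import Pool.Agent.H70.Schur5

set_option autoImplicit false
set_option maxRecDepth 100000

namespace Pool.Agent.H70.Schur

theorem tv63 : dig 72 65535 (comp (72 * (65535 + 1)) (rowv 72
    [3, 4, 0, 1, 4, 0, 1, 2, 0, 1, 2, 3, 0, 1, 2, 3])) = 4722366482869637459390 := by
  decide +kernel

theorem tv64 : dig 72 65535 (comp (72 * (65535 + 1)) (rowv 72
    [3, 4, 0, 1, 0, 1, 2, 3, 0, 1, 2, 3, 0, 1, 2, 3])) = 1154472 := by
  decide +kernel

theorem tv65 : dig 72 65535 (comp (72 * (65535 + 1)) (rowv 72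
    [4, 0, 1, 2, 4, 0, 1, 2, 4, 0, 1, 2, 4, 0, 1, 2])) = 4722366482869645112572 := by
  decide +kernel

theorem tv66 : dig 72 65535 (comp (72 * (65535 + 1)) (rowv 72
    [4, 0, 1, 2, 4, 0, 1, 2, 4, 0, 1, 2, 0, 1, 2, 3])) = 412484 := by
  decide +kernel

theorem tv67 : dig 72 65535 (comp (72 * (65535 + 1)) (rowv 72
    [4, 0, 1, 2, 4, 0, 1, 2, 0, 1, 2, 3, 0, 1, 2, 3])) = 1154472 := by
  decide +kernel

theorem tv68 : dig 72 65535 (comp (72 * (65535 + 1)) (rowv 72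
    [4, 0, 1, 2, 0, 1, 2, 3, 0, 1, 2, 3, 0, 1, 2, 3])) = 4722366482869642748800 := by
  decide +kernel

theorem tv69 : dig 72 65535 (comp (72 * (65535 + 1)) (rowv 72
    [0, 1, 2, 3, 0, 1, 2, 3, 0, 1, 2, 3, 0, 1, 2, 3])) = 146088 := by
  decide +kernel

end Pool.Agent.H70.Schur
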