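import Pool.Agent.H70.Schur6
import Pool.Agent.H70.SchurV0
import Pool.Agent.H70.SchurV1
import Pool.Agent.H70.SchurV2
import Pool.Agent.H70.SchurV3
import Pool.Agent.H70.SchurV4
import Pool.Agent.H70.SchurV5
import Pool.Agent.H70.SchurV6
import Pool.Agent.H70.SchurV7
import Pool.Agent.H70.SchurV8
import Pool.Agent.H70.SchurV9

set_option autoImplicit false
open Finset

namespace Pool.Agent.H70.Schur

/-- the lists of heights of the complements of the maximal chains. -/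
def HL : List (List ℕ) :=
  [
   [1, 2, 3, 4, 1, 2, 3, 4, 1, 2, 3, 4, 1, 2, 3, 4],
   [1, 2, 3, 4, 1, 2, 3, 4, 1, 2, 3, 4, 2, 3, 4, 0],
   [1, 2, 3, 4, 1, 2, 3, 4, 1, 2, 3, 4, 3, 4, 0, 1],
   [1, 2, 3, 4, 1, 2, 3, 4, 1, 2, 3, 4, 4, 0, 1, 2],
   [1, 2, 3, 4, 1, 2, 3, 4, 1, 2, 3, 4, 0, 1, 2, 3],
   [1, 2, 3, 4, 1, 2, 3, 4, 2, 3, 4, 0, 2, 3, 4, 0],
   [1, 2, 3, 4, 1, 2, 3, 4, 2, 3, 4, 0, 3, 4, 0, 1],
   [1, 2, 3, 4, 1, 2, 3, 4, 2, 3, 4, 0, 4, 0, 1, 2],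
   [1, 2, 3, 4, 1, 2, 3, 4, 2, 3, 4, 0, 0, 1, 2, 3],
   [1, 2, 3, 4, 1, 2, 3, 4, 3, 4, 0, 1, 3, 4, 0, 1],
   [1, 2, 3, 4, 1, 2, 3, 4, 3, 4, 0, 1, 4, 0, 1, 2],
   [1, 2, 3, 4, 1, 2, 3, 4, 3, 4, 0, 1, 0, 1, 2, 3],
   [1, 2, 3, 4, 1, 2, 3, 4, 4, 0, 1, 2, 4, 0, 1, 2],
   [1, 2, 3, 4, 1, 2, 3, 4, 4, 0, 1, 2, 0, 1, 2, 3],
   [1, 2, 3, 4, 1, 2, 3, 4, 0, 1, 2, 3, 0, 1, 2, 3],
   [1, 2, 3, 4, 2, 3, 4, 0, 2, 3, 4, 0, 2, 3, 4, 0],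
   [1, 2, 3, 4, 2, 3, 4, 0, 2, 3, 4, 0, 3, 4, 0, 1],
   [1, 2, 3, 4, 2, 3, 4, 0, 2, 3, 4, 0, 4, 0, 1, 2],
   [1, 2, 3, 4, 2, 3, 4, 0, 2, 3, 4, 0, 0, 1, 2, 3],
   [1, 2, 3, 4, 2, 3, 4, 0, 3, 4, 0, 1, 3, 4, 0, 1],
   [1, 2, 3, 4, 2, 3, 4, 0, 3, 4, 0, 1, 4, 0, 1, 2],
   [1, 2, 3, 4, 2, 3, 4, 0, 3, 4, 0, 1, 0, 1, 2, 3],
   [1, 2, 3, 4, 2, 3, 4, 0, 4, 0, 1, 2, 4, 0, 1, 2],
   [1, 2, 3, 4, 2, 3, 4, 0, 4, 0, 1, 2, 0, 1, 2, 3],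
   [1, 2, 3, 4, 2, 3, 4, 0, 0, 1, 2, 3, 0, 1, 2, 3],
   [1, 2, 3, 4, 3, 4, 0, 1, 3, 4, 0, 1, 3, 4, 0, 1],
   [1, 2, 3, 4, 3, 4, 0, 1, 3, 4, 0, 1, 4, 0, 1, 2],
   [1, 2, 3, 4, 3, 4, 0, 1, 3, 4, 0, 1, 0, 1, 2, 3],
   [1, 2, 3, 4, 3, 4, 0, 1, 4, 0, 1, 2, 4, 0, 1, 2],
   [1, 2, 3, 4, 3, 4, 0, 1, 4, 0, 1, 2, 0, 1, 2, 3],
   [1, 2, 3, 4, 3, 4, 0, 1, 0, 1, 2, 3, 0, 1, 2, 3],
   [1, 2, 3, 4, 4, 0, 1, 2, 4, 0, 1, 2, 4, 0, 1, 2],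
   [1, 2, 3, 4, 4, 0, 1, 2, 4, 0, 1, 2, 0, 1, 2, 3],
   [1, 2, 3, 4, 4, 0, 1, 2, 0, 1, 2, 3, 0, 1, 2, 3],
   [1, 2, 3, 4, 0, 1, 2, 3, 0, 1, 2, 3, 0, 1, 2, 3],
   [2, 3, 4, 0, 2, 3, 4, 0, 2, 3, 4, 0, 2, 3, 4, 0],
   [2, 3, 4, 0, 2, 3, 4, 0, 2, 3, 4, 0, 3, 4, 0, 1],
   [2, 3, 4, 0, 2, 3, 4, 0, 2, 3, 4, 0, 4, 0, 1, 2],
   [2, 3, 4, 0, 2, 3, 4, 0, 2, 3, 4, 0, 0, 1, 2, 3],
   [2, 3, 4, 0, 2, 3, 4, 0, 3, 4, 0, 1, 3, 4, 0, 1],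
   [2, 3, 4, 0, 2, 3, 4, 0, 3, 4, 0, 1, 4, 0, 1, 2],
   [2, 3, 4, 0, 2, 3, 4, 0, 3, 4, 0, 1, 0, 1, 2, 3],
   [2, 3, 4, 0, 2, 3, 4, 0, 4, 0, 1, 2, 4, 0, 1, 2],
   [2, 3, 4, 0, 2, 3, 4, 0, 4, 0, 1, 2, 0, 1, 2, 3],
   [2, 3, 4, 0, 2, 3, 4, 0, 0, 1, 2, 3, 0, 1, 2, 3],
   [2, 3, 4, 0, 3, 4, 0, 1, 3, 4, 0, 1, 3, 4, 0, 1],
   [2, 3, 4, 0, 3, 4, 0, 1, 3, 4, 0, 1, 4, 0, 1, 2],
   [2, 3, 4, 0, 3, 4, 0, 1, 3, 4, 0, 1, 0, 1, 2, 3],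
   [2, 3, 4, 0, 3, 4, 0, 1, 4, 0, 1, 2, 4, 0, 1, 2],
   [2, 3, 4, 0, 3, 4, 0, 1, 4, 0, 1, 2, 0, 1, 2, 3],
   [2, 3, 4, 0, 3, 4, 0, 1, 0, 1, 2, 3, 0, 1, 2, 3],
   [2, 3, 4, 0, 4, 0, 1, 2, 4, 0, 1, 2, 4, 0, 1, 2],
   [2, 3, 4, 0, 4, 0, 1, 2, 4, 0, 1, 2, 0, 1, 2, 3],
   [2, 3, 4, 0, 4, 0, 1, 2, 0, 1, 2, 3, 0, 1, 2, 3],
   [2, 3, 4, 0, 0, 1, 2, 3, 0, 1, 2, 3, 0, 1, 2, 3],
   [3, 4, 0, 1, 3, 4, 0, 1, 3, 4, 0, 1, 3, 4, 0, 1],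
   [3, 4, 0, 1, 3, 4, 0, 1, 3, 4, 0, 1, 4, 0, 1, 2],
   [3, 4, 0, 1, 3, 4, 0, 1, 3, 4, 0, 1, 0, 1, 2, 3],
   [3, 4, 0, 1, 3, 4, 0, 1, 4, 0, 1, 2, 4, 0, 1, 2],
   [3, 4, 0, 1, 3, 4, 0, 1, 4, 0, 1, 2, 0, 1, 2, 3],
   [3, 4, 0, 1, 3, 4, 0, 1, 0, 1, 2, 3, 0, 1, 2, 3],
   [3, 4, 0, 1, 4, 0, 1, 2, 4, 0, 1, 2, 4, 0, 1, 2],
   [3, 4, 0, 1, 4, 0, 1, 2, 4, 0, 1, 2, 0, 1, 2, 3],
   [3, 4, 0, 1, 4, 0, 1, 2, 0, 1, 2, 3, 0, 1, 2, 3],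
   [3, 4, 0, 1, 0, 1, 2, 3, 0, 1, 2, 3, 0, 1, 2, 3],
   [4, 0, 1, 2, 4, 0, 1, 2, 4, 0, 1, 2, 4, 0, 1, 2],
   [4, 0, 1, 2, 4, 0, 1, 2, 4, 0, 1, 2, 0, 1, 2, 3],
   [4, 0, 1, 2, 4, 0, 1, 2, 0, 1, 2, 3, 0, 1, 2, 3],
   [4, 0, 1, 2, 0, 1, 2, 3, 0, 1, 2, 3, 0, 1, 2, 3],
   [0, 1, 2, 3, 0, 1, 2, 3, 0, 1, 2, 3, 0, 1, 2, 3]]

/-- the computed values. -/
def VL : List ℕ :=
  [146088,
   4722366482869642748800,
   1154472,
   412484,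
   4722366482869645112572,
   1154472,
   4722366482869637459390,
   2829796,
   349312,
   1595724,
   4722366482869642897848,
   4722366482869644478064,
   4722366482869643835092,
   614772,
   667256,
   412484,
   2829796,
   4722366482869639575660,
   348020,
   4722366482869642897848,
   14261996,
   4722366482869639778540,
   4722366482869642382392,
   1714776,
   614772,
   4722366482869643835092,
   4722366482869642382392,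
   4964584,
   4418900,
   4722366482869639778540,
   4722366482869644478064,
   645450,
   348020,
   349312,
   4722366482869645112572,
   4722366482869645112572,
   349312,
   348020,
   645450,
   4722366482869644478064,
   4722366482869639778540,
   4418900,
   4964584,
   4722366482869642382392,
   4722366482869643835092,
   614772,
   1714776,
   4722366482869642382392,
   4722366482869639778540,
   14261996,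
   4722366482869642897848,
   348020,
   4722366482869639575660,
   2829796,
   412484,
   667256,
   614772,
   4722366482869643835092,
   4722366482869644478064,
   4722366482869642897848,
   1595724,
   349312,
   2829796,
   4722366482869637459390,
   1154472,
   4722366482869645112572,
   412484,
   1154472,
   4722366482869642748800,
   146088]

theorem HL_eq : ((chs 9 (List.range 25)).map fun t => (cpl t).map (· % 5)) = HL := by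
  decide +kernel

theorem VL_eq :
    HL.map (fun h => dig 72 65535 (comp (72 * (65535 + 1)) (rowv 72 h))) = VL :=
  congrArg₂ List.cons tv0 <|
  congrArg₂ List.cons tv1 <|
  congrArg₂ List.cons tv2 <|
  congrArg₂ List.cons tv3 <|
  congrArg₂ List.cons tv4 <|
  congrArg₂ List.cons tv5 <|
  congrArg₂ List.cons tv6 <|
  congrArg₂ List.cons tv7 <|
  congrArg₂ List.cons tv8 <|
  congrArg₂ List.cons tv9 <|
  congrArg₂ List.cons tv10 <|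
  congrArg₂ List.cons tv11 <|
  congrArg₂ List.cons tv12 <|
  congrArg₂ List.cons tv13 <|
  congrArg₂ List.cons tv14 <|
  congrArg₂ List.cons tv15 <|
  congrArg₂ List.cons tv16 <|
  congrArg₂ List.cons tv17 <|
  congrArg₂ List.cons tv18 <|
  congrArg₂ List.cons tv19 <|
  congrArg₂ List.cons tv20 <|
  congrArg₂ List.cons tv21 <|
  congrArg₂ List.cons tv22 <|
  congrArg₂ List.cons tv23 <|
  congrArg₂ List.cons tv24 <|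
  congrArg₂ List.cons tv25 <|
  congrArg₂ List.cons tv26 <|
  congrArg₂ List.cons tv27 <|
  congrArg₂ List.cons tv28 <|
  congrArg₂ List.cons tv29 <|
  congrArg₂ List.cons tv30 <|
  congrArg₂ List.cons tv31 <|
  congrArg₂ List.cons tv32 <|
  congrArg₂ List.cons tv33 <|
  congrArg₂ List.cons tv34 <|
  congrArg₂ List.cons tv35 <|
  congrArg₂ List.cons tv36 <|
  congrArg₂ List.cons tv37 <|
  congrArg₂ List.cons tv38 <|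
  congrArg₂ List.cons tv39 <|
  congrArg₂ List.cons tv40 <|
  congrArg₂ List.cons tv41 <|
  congrArg₂ List.cons tv42 <|
  congrArg₂ List.cons tv43 <|
  congrArg₂ List.cons tv44 <|
  congrArg₂ List.cons tv45 <|
  congrArg₂ List.cons tv46 <|
  congrArg₂ List.cons tv47 <|
  congrArg₂ List.cons tv48 <|
  congrArg₂ List.cons tv49 <|
  congrArg₂ List.cons tv50 <|
  congrArg₂ List.cons tv51 <|
  congrArg₂ List.cons tv52 <|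
  congrArg₂ List.cons tv53 <|
  congrArg₂ List.cons tv54 <|
  congrArg₂ List.cons tv55 <|
  congrArg₂ List.cons tv56 <|
  congrArg₂ List.cons tv57 <|
  congrArg₂ List.cons tv58 <|
  congrArg₂ List.cons tv59 <|
  congrArg₂ List.cons tv60 <|
  congrArg₂ List.cons tv61 <|
  congrArg₂ List.cons tv62 <|
  congrArg₂ List.cons tv63 <|
  congrArg₂ List.cons tv64 <|
  congrArg₂ List.cons tv65 <|
  congrArg₂ List.cons tv66 <|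
  congrArg₂ List.cons tv67 <|
  congrArg₂ List.cons tv68 <|
  congrArg₂ List.cons tv69 <|
  rfl

theorem VL_sum : (VL.map (sv 72)).sum = -3240176 := by decide +kernel

theorem chk1 : ∀ t ∈ chs 9 (List.range 25),
    (List.range 25).filter (fun c => decide (c ∈ t)) = t := by decide +kernel

theorem chk2 : ∀ t ∈ chs 9 (List.range 25),
    (List.range 25).filter (fun c => decide (c ∈ cpl t)) = cpl t ∧ (cpl t).length = 16 ∧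
      2 * bnd (rowv 0 ((cpl t).map (· % 5))) + 2 ≤ 2 ^ 72 := by decide +kernel

theorem glue (w D : ℕ) (hD : D + 1 = 2 ^ 16) (hw : 0 < w) (L : List (List ℕ))
    (hL : ∀ t ∈ L, (List.range 25).filter (fun c => decide (c ∈ cpl t)) = cpl t ∧
      (cpl t).length = 16 ∧ 2 * bnd (rowv 0 ((cpl t).map (· % 5))) + 2 ≤ 2 ^ w) :
    L.map (fun t => MvPolynomial.coeff (onesOn ((cpl t).map pt).toFinset) GG) =
      (((L.map fun t => (cpl t).map (· % 5)).map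
        (fun h => dig w D (comp (w * (D + 1)) (rowv w h)))).map (sv w)) := by
  rw [List.map_map, List.map_map]
  apply List.map_congr_left
  intro t ht
  obtain ⟨h1, h2, h3⟩ := hL t ht
  exact value w D (cpl t) h1 h2 hD hw h3

theorem main_value : MvPolynomial.coeff (onesOn (univ : Finset PP)) (HH 9 * GG) = -3240176 := by
  rw [coeff_HH9 GG chk1, glue 72 65535 (by norm_num) (by norm_num) _ chk2, HL_eq, VL_eq, VL_sum]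

theorem det_value : MvPolynomial.coeff (onesOn (univ : Finset PP))
    (Matrix.det (Matrix.of fun a b : Fin 9 => Hs FF (al a) b)) = -3240176 := by
  have h1 : (Matrix.of fun a b : Fin 9 => Hs FF (al a) b) = JT HH := by
    apply Matrix.ext
    intro a b
    exact Hs_shift _ _
  rw [h1, det_JT HH HH_zero HH_big]
  exact main_value

end Pool.Agent.H70.Schur
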